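import Pool.Agent.Helper64.Per2.Norm

/-!
# Period relations: endomorphisms which do not commute with the monodromy, any family
-/

open Polynomial Matrix

namespace Pool.Agent.Helper64.Per2

open Pool.Agent.Helper64.Per

variable {ι : Type}

/-- `P'` on `U'` is an immediate analytic continuation of `P` on `U`: both are analytic on connected
open sets, and equal on a nonempty open set. -/
def Next (a b : Set ℂ × (ℂ → Matrix ι ι ℂ)) : Prop :=
  IsOpen b.1 ∧ IsPreconnected b.1 ∧ (∀ i k, AnalyticOnNhd ℂ (fun t => b.2 t i k) b.1) ∧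
    ∃ O : Set ℂ, IsOpen O ∧ O.Nonempty ∧ O ⊆ a.1 ∧ O ⊆ b.1 ∧ ∀ t ∈ O, a.2 t = b.2 t

/-- Analytic continuation. -/
def Cont : (Set ℂ × (ℂ → Matrix ι ι ℂ)) → (Set ℂ × (ℂ → Matrix ι ι ℂ)) → Prop :=
  Relation.ReflTransGen Next

theorem evM_analyticOn {U : Set ℂ} {P : ℂ → Matrix ι ι ℂ}
    (hP : ∀ i k, AnalyticOnNhd ℂ (fun t => P t i k) U)
    (q : MvPolynomial (ι × ι) (Polynomial Qbar)) :
    AnalyticOnNhd ℂ (fun t => evM q t (P t)) U := by
  induction q using MvPolynomial.induction_on with
  | C a =>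
    intro u _
    have h : (fun u : ℂ => evM (MvPolynomial.C a : MvPolynomial (ι × ι) (Polynomial Qbar)) u
        (P u)) = fun u => Polynomial.aeval u a := by
      funext u
      unfold evM
      rw [MvPolynomial.eval₂_C]
      rfl
    rw [h]
    exact analyticAt_id.aeval_polynomial a
  | add p q hp hq =>
    intro u hu
    have h : (fun u : ℂ => evM (p + q) u (P u)) = fun u => evM p u (P u) + evM q u (P u) := by
      funext u
      unfold evM
      rw [MvPolynomial.eval₂_add]
    rw [h]
    exact (hp u hu).add (hq u hu)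
  | mul_X p j hp =>
    intro u hu
    have h : (fun u : ℂ => evM (p * MvPolynomial.X j) u (P u)) =
        fun u => evM p u (P u) * P u j.1 j.2 := by
      funext u
      unfold evM
      rw [MvPolynomial.eval₂_mul, MvPolynomial.eval₂_X]
    rw [h]
    exact (hp u hu).mul (hP j.1 j.2 u hu)

theorem evM_of_cont {a b : Set ℂ × (ℂ → Matrix ι ι ℂ)} (h : Cont a b)
    (q : MvPolynomial (ι × ι) (Polynomial Qbar)) (hq : ∀ t ∈ a.1, evM q t (a.2 t) = 0) :
    ∀ t ∈ b.1, evM q t (b.2 t) = 0 := by
  induction h with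
  | refl => exact hq
  | @tail b c _ hbc ih =>
    obtain ⟨_, hconn, han, O, hO, ⟨t₀, ht₀⟩, hOb, hOc, heq⟩ := hbc
    have h1 : Set.EqOn (fun t => evM q t (c.2 t)) 0 c.1 := by
      refine (evM_analyticOn han q).eqOn_zero_of_preconnected_of_eventuallyEq_zero hconn
        (hOc ht₀) ?_
      filter_upwards [hO.mem_nhds ht₀] with t ht
      have h2 := ih t (hOb ht)
      rw [heq t ht] at h2
      exact h2
    exact h1

/-- Let `P` be a period matrix near `s` and let `α`, `β` be matrices over `κ` with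
`α P(s) = P(s) β` (an endomorphism of `H^j(X_s)`). If analytic continuation along a closed path
changes `P(s)` to `P(s) ρ` and `ρ` does not commute with `β`, there is a relation of degree one
over `κ` at `s`. -/
theorem hasRelation_of_endomorphism [Fintype ι] [DecidableEq ι] {U U' : Set ℂ}
    {P P' : ℂ → Matrix ι ι ℂ} {s : ℂ} (hdet : IsUnit (P s).det)
    {κ : IntermediateField ℚ Qbar} {α β : Matrix ι ι κ}
    (hαβ : α.map (algebraMap κ ℂ) * P s = P s * β.map (algebraMap κ ℂ)) {ρ : GL ι ℚ}
    (hcont : Cont (U, P) (U', P')) (hs' : s ∈ U') (hρ : P' s = P s * toC ρ)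
    (hne : toC ρ * β.map (algebraMap κ ℂ) ≠ β.map (algebraMap κ ℂ) * toC ρ) {δ : ℕ} (hδ : 1 ≤ δ) :
    HasRelation U P s κ δ := by
  have hmem : P s * toC ρ ∈ BFibre U P s := by
    refine ⟨?_, fun q hq => ?_⟩
    · rw [Matrix.det_mul]
      exact hdet.mul (toC_det ρ)
    · rw [← hρ]
      exact evM_of_cont hcont q hq s hs'
  let q : ι → ι → MvPolynomial (ι × ι) κ := fun a b =>
    ∑ c, MvPolynomial.C (α a c) * MvPolynomial.X (c, b) -
      ∑ c, MvPolynomial.C (β c b) * MvPolynomial.X (a, c)
  have hq : ∀ a b (M : Matrix ι ι ℂ), evK κ (q a b) M =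
        (α.map (algebraMap κ ℂ) * M - M * β.map (algebraMap κ ℂ)) a b := by
    intro a b M
    unfold evK
    simp only [q, map_sub, map_sum, map_mul, MvPolynomial.aeval_X, Matrix.sub_apply,
      Matrix.mul_apply, Matrix.map_apply, MvPolynomial.aeval_C]
    congr 1
    exact Finset.sum_congr rfl (fun c _ => mul_comm _ _)
  have hd : ∀ a b, (q a b).totalDegree ≤ δ := by
    intro a b
    have h1 : ∀ (x : κ) (p : ι × ι),
        (MvPolynomial.C x * MvPolynomial.X p : MvPolynomial (ι × ι) κ).totalDegree ≤ 1 := by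
      intro x p
      refine (MvPolynomial.totalDegree_mul _ _).trans ?_
      rw [MvPolynomial.totalDegree_C, MvPolynomial.totalDegree_X]
    refine (MvPolynomial.totalDegree_sub _ _).trans (max_le ?_ ?_)
    · exact MvPolynomial.totalDegree_finsetSum_le (fun c _ => (h1 _ _).trans hδ)
    · exact MvPolynomial.totalDegree_finsetSum_le (fun c _ => (h1 _ _).trans hδ)
  by_contra hno
  apply hne
  have h2 : α.map (algebraMap κ ℂ) * (P s * toC ρ) - P s * toC ρ * β.map (algebraMap κ ℂ) = 0 := by
    ext a b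
    rw [← hq]
    by_contra hab
    apply hno
    refine ⟨q a b, hd a b, fun M hM => evK_ZClosure ?_ hM, fun hall => hab (hall _ hmem)⟩
    rw [hq, hαβ, sub_self]
    rfl
  rw [← Matrix.mul_assoc, hαβ, Matrix.mul_assoc, Matrix.mul_assoc, ← Matrix.mul_sub] at h2
  have h3 := congrArg (fun M => (P s)⁻¹ * M) h2
  rw [← Matrix.mul_assoc, Matrix.nonsing_inv_mul _ hdet, Matrix.one_mul, Matrix.mul_zero] at h3
  exact (sub_eq_zero.1 h3).symm

end Pool.Agent.Helper64.Per2
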