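import Pool.Agent.Helper64.Per.Defs

/-!
# Period relations in families with finite monodromy: definitions (MP_290158_ag)
-/

open Polynomial

namespace Pool.Agent.Helper64.Per2

open Pool.Agent.Helper64.Per

variable {m : ℕ}

/-- The matrix over `ℂ` of a rational matrix. -/
noncomputable def toC {ι : Type} [Fintype ι] [DecidableEq ι] (g : GL ι ℚ) : Matrix ι ι ℂ :=
  (g : Matrix ι ι ℚ).map (algebraMap ℚ ℂ)

/-- Let `T → S` be a finite étale cover of degree `n` and `Y` a smooth projective variety over
`ℚ̄` with period matrix `P₀` in degree `j`. This is the period matrix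
`x_k(t)^i P₀(a, b)` of the family `X → S` with fibres `Y ⨯ (fibre of T)` (disjoint unions of `n`
copies of `Y`), and (if `H^i(Y) = 0` for `0 < i < j`, for example `j = 1`) of the Weil restriction
`X = R_{T/S} Y`, a family with fibres `Y^n`. -/
noncomputable def weil {f : Cover} {s : ℂ} (b : f.Branch s) (P₀ : Matrix (Fin m) (Fin m) ℂ)
    (t : ℂ) : Matrix (Fin f.deg × Fin m) (Fin f.deg × Fin m) ℂ :=
  Matrix.of fun p q => b.x q.1 t ^ (p.1 : ℕ) * P₀ p.2 q.2

/-- The degree-`δ` statement of the problem for this family, with respect to a model over `K`: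
there are no relations of degree at most `δ` over `κ(s) = K(s)`, for all local bases. -/
def WeilHolds (f : Cover) (P₀ : Matrix (Fin m) (Fin m) ℂ) (K : IntermediateField ℚ Qbar)
    (δ : ℕ) : Prop :=
  ∀ s : Qbar, (s : ℂ) ∈ f.S → ∀ (b : f.Branch (s : ℂ)) (g : GL (Fin f.deg × Fin m) ℚ),
    ¬ HasRelation b.U (fun t => weil b P₀ t * toC g) (s : ℂ) (kappa K s) δ

variable {ι : Type}

/-- The value at `(t, u)` of a matrix of polynomials in `t` and `u`. -/
noncomputable def evN (N : Matrix ι ι (Polynomial (Polynomial Qbar))) (t u : ℂ) : Matrix ι ι ℂ :=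
  N.map fun p => eval₂ (ev t) u p

variable [Fintype ι] [DecidableEq ι]

/-- A family `X → S` such that the local system `R^j f_* ℚ` becomes constant on the finite étale
cover `T : F(t, u) = 0` of `S`. The period matrix, in a basis of flat sections over `T`, is
`N(t, u) P₀`, where `P₀` is constant and `N` is algebraic (a matrix of functions on `T`).
The bases of flat sections on two sheets of `T` differ by a rational matrix. -/
structure FiniteFamily (f : Cover) (ι : Type) [Fintype ι] [DecidableEq ι] where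
  /-- the algebraic part of the period matrix -/
  N : Matrix ι ι (Polynomial (Polynomial Qbar))
  /-- the constant part of the period matrix -/
  P₀ : Matrix ι ι ℂ
  det₀ : IsUnit P₀.det
  det : ∀ t ∈ f.S, ∀ u : ℂ, eval₂ (ev t) u f.F = 0 → IsUnit (evN N t u).det
  flat : ∀ (s : ℂ) (b : f.Branch s) (k l : Fin f.deg), ∃ ρ : GL ι ℚ,
    ∀ t ∈ b.U, evN N t (b.x l t) * P₀ = evN N t (b.x k t) * P₀ * toC ρ

namespace FiniteFamily

variable {f : Cover} (X : FiniteFamily f ι)

/-- The period matrix near `s`, on the sheet `k`, for the local basis given by `g`. -/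
noncomputable def P {s : ℂ} (b : f.Branch s) (k : Fin f.deg) (g : GL ι ℚ) (t : ℂ) :
    Matrix ι ι ℂ :=
  evN X.N t (b.x k t) * X.P₀ * toC g

/-- The degree-`δ` statement of the problem for `X`, with respect to a model over `K`. -/
def Holds (K : IntermediateField ℚ Qbar) (δ : ℕ) : Prop :=
  ∀ s : Qbar, (s : ℂ) ∈ f.S → ∀ (b : f.Branch (s : ℂ)) (k : Fin f.deg) (g : GL ι ℚ),
    ¬ HasRelation b.U (X.P b k g) (s : ℂ) (kappa K s) δ

/-- The monodromy group, in the fixed basis of flat sections over `T`. -/
def Mono : Set (GL ι ℚ) :=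
  {ρ | ∃ (s : ℂ) (b : f.Branch s) (k l : Fin f.deg),
    ∀ t ∈ b.U, evN X.N t (b.x l t) * X.P₀ = evN X.N t (b.x k t) * X.P₀ * toC ρ}

/-- All polynomials over `ℚ̄` of degree at most `δ` which vanish at `P₀` vanish at `P₀ ρ`, for all
`ρ` in the monodromy group. -/
def Stable (δ : ℕ) : Prop :=
  ∀ ρ ∈ X.Mono, ∀ q : MvPolynomial (ι × ι) Qbar, q.totalDegree ≤ δ →
    MvPolynomial.aeval (fun p => X.P₀ p.1 p.2) q = 0 →
    MvPolynomial.aeval (fun p => (X.P₀ * toC ρ) p.1 p.2) q = 0

end FiniteFamily

end Pool.Agent.Helper64.Per2
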