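import Pool.Agent.Helper64.Per.Exist

/-!
# Period relations: descent of algebraic relations with complex coefficients to algebraic ones
-/

namespace Pool.Agent.Helper64.Per2

open Pool.Agent.Helper64.Per

variable {τ : Type}

/-- A linear functional applied to the coefficients. -/
noncomputable def lin (φ : ℂ →ₗ[Qbar] Qbar) (H : MvPolynomial τ ℂ) : MvPolynomial τ Qbar :=
  ∑ d ∈ H.support, MvPolynomial.monomial d (φ (H.coeff d))

theorem lin_eval (φ : ℂ →ₗ[Qbar] Qbar) (H : MvPolynomial τ ℂ) (z : τ → Qbar) :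
    MvPolynomial.aeval z (lin φ H) = φ (MvPolynomial.eval (fun i => (z i : ℂ)) H) := by
  rw [MvPolynomial.eval_eq, lin, map_sum, map_sum]
  refine Finset.sum_congr rfl (fun d _ => ?_)
  rw [MvPolynomial.aeval_monomial]
  have h1 : MvPolynomial.coeff d H * ∏ i ∈ d.support, ((z i : ℂ)) ^ d i =
      (∏ i ∈ d.support, z i ^ d i : Qbar) • MvPolynomial.coeff d H := by
    rw [Algebra.smul_def, mul_comm]
    congr 1
    rw [map_prod]
    refine Finset.prod_congr rfl (fun i _ => ?_)
    rw [map_pow]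
    rfl
  rw [h1, map_smul, smul_eq_mul, mul_comm]
  rfl

theorem eq_zero_of_forall_lin {v : ℂ} (h : ∀ φ : ℂ →ₗ[Qbar] Qbar, φ v = 0) : v = 0 :=
  (Module.forall_dual_apply_eq_zero_iff Qbar v).1 h

/-- The algebraic numbers are dense. -/
theorem exists_algebraic_near (z : ℂ) {ε : ℝ} (hε : 0 < ε) : ∃ t : Qbar, dist (t : ℂ) z < ε := by
  obtain ⟨p, hp1, hp2⟩ := exists_rat_btwn (show z.re - ε / 2 < z.re + ε / 2 by linarith)
  obtain ⟨q, hq1, hq2⟩ := exists_rat_btwn (show z.im - ε / 2 < z.im + ε / 2 by linarith)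
  have hI : Complex.I ∈ algebraicClosure ℚ ℂ := by
    rw [mem_algebraicClosure_iff]
    refine ⟨Polynomial.X ^ 2 + 1, ?_, by simp⟩
    exact (Polynomial.monic_X_pow_add_C (1 : ℚ) two_ne_zero).ne_zero
  have ht : ((p : ℂ) + (q : ℂ) * Complex.I) ∈ algebraicClosure ℚ ℂ := by
    refine add_mem ?_ (mul_mem ?_ hI)
    · exact (algebraicClosure ℚ ℂ).algebraMap_mem p
    · exact (algebraicClosure ℚ ℂ).algebraMap_mem q
  refine ⟨⟨_, ht⟩, ?_⟩
  rw [Complex.dist_eq]
  refine (Complex.norm_le_abs_re_add_abs_im _).trans_lt ?_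
  have h1 : |((p : ℂ) + (q : ℂ) * Complex.I - z).re| < ε / 2 := by
    have : ((p : ℂ) + (q : ℂ) * Complex.I - z).re = (p : ℝ) - z.re := by simp
    rw [this, abs_lt]
    constructor <;> linarith
  have h2 : |((p : ℂ) + (q : ℂ) * Complex.I - z).im| < ε / 2 := by
    have : ((p : ℂ) + (q : ℂ) * Complex.I - z).im = (q : ℝ) - z.im := by simp
    rw [this, abs_lt]
    constructor <;> linarith
  linarith

theorem eq_zero_of_algebraic {U : Set ℂ} (hU : IsOpen U) {f : ℂ → ℂ} (hf : ContinuousOn f U)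
    (h : ∀ t : Qbar, (t : ℂ) ∈ U → f t = 0) : ∀ t ∈ U, f t = 0 := by
  intro t ht
  by_contra hne
  have h1 : ∀ᶠ s in nhds t, f s ≠ 0 := (hf.continuousAt (hU.mem_nhds ht)).eventually_ne hne
  obtain ⟨ε, hε, hball⟩ := Metric.eventually_nhds_iff_ball.1 (h1.and (hU.mem_nhds ht))
  obtain ⟨s, hs⟩ := exists_algebraic_near t hε
  exact (hball _ hs).1 (h s (hball _ hs).2)

theorem continuousOn_aeval {U : Set ℂ} {z : ℂ → τ → ℂ} (hz : ∀ i, ContinuousOn (fun t => z t i) U)
    (h : MvPolynomial τ Qbar) : ContinuousOn (fun t => MvPolynomial.aeval (z t) h) U := by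
  induction h using MvPolynomial.induction_on with
  | C a =>
    simp only [MvPolynomial.aeval_C]
    exact continuousOn_const
  | add p q hp hq =>
    simp only [map_add]
    exact hp.add hq
  | mul_X p i hp =>
    simp only [map_mul, MvPolynomial.aeval_X]
    exact hp.mul (hz i)

/-- Let `z` be a curve whose coordinates are algebraic at algebraic points. If all algebraic
relations over `ℚ̄` between the coordinates of `z` hold at the algebraic point `y`, so do all
relations over `ℂ`. -/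
theorem descent {U : Set ℂ} (hU : IsOpen U) {z : ℂ → τ → ℂ}
    (hz : ∀ i, ContinuousOn (fun t => z t i) U)
    (halg : ∀ t : Qbar, (t : ℂ) ∈ U → ∃ w : τ → Qbar, ∀ i, z t i = (w i : ℂ)) (y : τ → Qbar)
    (hy : ∀ h : MvPolynomial τ Qbar, (∀ t ∈ U, MvPolynomial.aeval (z t) h = 0) →
      MvPolynomial.aeval y h = 0)
    (H : MvPolynomial τ ℂ) (hH : ∀ t ∈ U, MvPolynomial.eval (z t) H = 0) :
    MvPolynomial.eval (fun i => (y i : ℂ)) H = 0 := by
  refine eq_zero_of_forall_lin (fun φ => ?_)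
  rw [← lin_eval]
  refine hy _ (eq_zero_of_algebraic hU (continuousOn_aeval hz _) (fun t ht => ?_))
  obtain ⟨w, hw⟩ := halg t ht
  have h1 : z t = (algebraMap Qbar ℂ) ∘ w := funext hw
  rw [h1, MvPolynomial.aeval_algebraMap_apply, lin_eval]
  have h2 := hH t ht
  rw [h1] at h2
  have h3 : MvPolynomial.eval (fun i => ((w i : Qbar) : ℂ)) H = 0 := h2
  rw [h3, map_zero, map_zero]

end Pool.Agent.Helper64.Per2
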