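import Pool.Agent.Helper64.Per2.Spec

/-!
# Period relations: points of a curve which are rational over the field of one coordinate
-/

open Polynomial

namespace Pool.Agent.Helper64.Per2

open Pool.Agent.Helper64.Per

section

variable {k : Type} [Field k] [IsAlgClosed k]

/-- For infinitely many values of `u` in an infinite set the curve has points. -/
theorem infinite_points_of {G : Polynomial (Polynomial k)} (hG : Irreducible G)
    (hGm : G.Monic) (hdeg : 2 ≤ G.natDegree) {D : Polynomial k} (hD : D ≠ 0) {Z : Set k}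
    (hZ : Z.Infinite) :
    {s : k | D.eval s ≠ 0 ∧ ∃ c ∈ Z, eval₂ (evalRingHom s) c G = 0}.Infinite := by
  classical
  have hfin : ∀ s : k, {c : k | eval₂ (evalRingHom s) c G = 0}.Finite := by
    intro s
    have hne : G.map (evalRingHom s) ≠ 0 := (hGm.map _).ne_zero
    have h1 : {c : k | (G.map (evalRingHom s)).IsRoot c}.Finite :=
      Polynomial.finite_setOfPred_isRoot hne
    refine h1.subset ?_
    intro c hc
    simp only [Set.mem_ofPred_eq, IsRoot, eval_map]
    exact hc
  have hZ0 : {c : k | (G.eval (C c)).natDegree = 0}.Finite := by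
    by_contra hinf
    have hinf' : {c : k | (G.eval (C c)).natDegree = 0}.Infinite := hinf
    have hmapeq : ∀ s1 s2 : k, G.map (evalRingHom s1) = G.map (evalRingHom s2) := by
      intro s1 s2
      refine eq_of_infinite_eval_eq _ _ (hinf'.mono ?_)
      intro c hc
      simp only [Set.mem_ofPred_eq, eval_map]
      rw [← eval_eval_C, ← eval_eval_C]
      have hc' : (G.eval (C c)).natDegree = 0 := hc
      rw [eq_C_of_natDegree_eq_zero hc']
      simp
    have hcoeff : ∀ i, G.coeff i = C ((G.coeff i).eval 0) := by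
      intro i
      refine Polynomial.funext (fun s => ?_)
      rw [eval_C]
      have h1 := congrArg (fun p => p.coeff i) (hmapeq s 0)
      simpa [coeff_map] using h1
    have hGC : G = (G.map (evalRingHom 0)).map C := by
      ext1 i
      rw [coeff_map, coeff_map]
      exact hcoeff i
    have hd0 : (G.map (evalRingHom 0)).degree ≠ 0 := by
      intro h0
      have : (G.map (evalRingHom 0)).natDegree = 0 := natDegree_eq_zero_iff_degree_le_zero.2 h0.le
      rw [hGm.natDegree_map] at this
      omega
    obtain ⟨r, hr⟩ := IsAlgClosed.exists_root _ hd0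
    have hdvd : X - C (C r) ∣ G := by
      rw [hGC]
      have h1 : (X - C r) ∣ G.map (evalRingHom 0) := dvd_iff_isRoot.2 hr
      have h2 := map_dvd (mapRingHom (C : k →+* Polynomial k)) h1
      simpa using h2
    obtain ⟨H, hH⟩ := hdvd
    rcases hG.isUnit_or_isUnit hH with hu | hu
    · have := natDegree_eq_zero_of_isUnit hu
      rw [natDegree_X_sub_C] at this
      omega
    · have h0 := natDegree_eq_zero_of_isUnit hu
      have hHne : H ≠ 0 := hu.ne_zero
      have : G.natDegree = 1 := by
        rw [hH, natDegree_mul (X_sub_C_ne_zero _) hHne, natDegree_X_sub_C, h0]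
      omega
  set E : Set k := {c : k | (G.eval (C c)).natDegree = 0} ∪
    ⋃ ρ ∈ D.roots.toFinset, {c : k | eval₂ (evalRingHom ρ) c G = 0} with hE
  have hEfin : E.Finite := by
    refine hZ0.union ?_
    exact Set.Finite.biUnion (Finset.finite_toSet _) (fun ρ _ => hfin ρ)
  intro hT
  have hcover : Z \ E ⊆ ⋃ s ∈ {s : k | D.eval s ≠ 0 ∧ ∃ c ∈ Z, eval₂ (evalRingHom s) c G = 0},
      {c : k | eval₂ (evalRingHom s) c G = 0} := by
    rintro c ⟨hcZ, hc⟩
    have hc1 : (G.eval (C c)).natDegree ≠ 0 := fun h => hc (Or.inl h)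
    have hd : (G.eval (C c)).degree ≠ 0 := by
      intro h0
      exact hc1 (natDegree_eq_zero_iff_degree_le_zero.2 h0.le)
    obtain ⟨s, hs⟩ := IsAlgClosed.exists_root _ hd
    have hs' : eval₂ (evalRingHom s) c G = 0 := by
      rw [← eval_eval_C]; exact hs
    have hDs : D.eval s ≠ 0 := by
      intro h0
      apply hc
      right
      simp only [Set.mem_iUnion, Set.mem_ofPred_eq, Multiset.mem_toFinset]
      exact ⟨s, (mem_roots hD).2 h0, hs'⟩
    simp only [Set.mem_iUnion, Set.mem_ofPred_eq]
    exact ⟨s, ⟨hDs, c, hcZ, hs'⟩, hs'⟩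
  exact (hZ.sdiff hEfin) ((Set.Finite.biUnion hT (fun s _ => hfin s)).subset hcover)

omit [IsAlgClosed k] in
/-- An irreducible curve and another curve with infinitely many values of `u` at common points. -/
theorem dvd_of_infinite {F G : Polynomial (Polynomial k)} (hF : Irreducible F) (hFm : F.Monic)
    (h : {c : k | ∃ s : k, eval₂ (evalRingHom s) c F = 0 ∧
      eval₂ (evalRingHom s) c G = 0}.Infinite) : F ∣ G := by
  classical
  by_contra hnd
  have hd0 : F.natDegree ≠ 0 := by
    intro h0
    rw [hFm.natDegree_eq_zero] at h0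
    rw [h0] at hF
    exact hF.not_isUnit isUnit_one
  let K := FractionRing (Polynomial k)
  have hres : resultant F G ≠ 0 := by
    intro h0
    have h1 : resultant (F.map (algebraMap (Polynomial k) K)) (G.map (algebraMap (Polynomial k) K))
        = 0 := by
      have h2 := resultant_map_map F G F.natDegree G.natDegree (algebraMap (Polynomial k) K)
      have hinj := IsFractionRing.injective (Polynomial k) K
      rw [natDegree_map_eq_of_injective hinj, natDegree_map_eq_of_injective hinj, h2, h0, map_zero]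
    have hirr : Irreducible (F.map (algebraMap (Polynomial k) K)) :=
      hFm.irreducible_iff_irreducible_map_fraction_map.1 hF
    have h3 := (resultant_eq_zero_iff.1 h1).2
    have h4 : ¬ F.map (algebraMap (Polynomial k) K) ∣ G.map (algebraMap (Polynomial k) K) := by
      intro hdvd
      apply hnd
      have hmod : (G.map (algebraMap (Polynomial k) K)) %ₘ
          (F.map (algebraMap (Polynomial k) K)) = 0 :=
        (modByMonic_eq_zero_iff_dvd (hFm.map _)).2 hdvd
      rw [← map_modByMonic _ hFm] at hmod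
      have hzero : G %ₘ F = 0 :=
        (Polynomial.map_eq_zero_iff (IsFractionRing.injective (Polynomial k) K)).1 hmod
      exact (modByMonic_eq_zero_iff_dvd hFm).1 hzero
    exact h3 ((Irreducible.coprime_iff_not_dvd hirr).2 h4)
  obtain ⟨p, q, _, _, hpq⟩ := exists_mul_add_mul_eq_C_resultant F G
    (m := F.natDegree) (n := G.natDegree) le_rfl le_rfl (Or.inl hd0)
  have hsub : {c : k | ∃ s : k, eval₂ (evalRingHom s) c F = 0 ∧
      eval₂ (evalRingHom s) c G = 0} ⊆ ⋃ s ∈ (resultant F G).roots.toFinset,
        {c : k | (F.map (evalRingHom s)).IsRoot c} := by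
    rintro c ⟨s, h1, h2⟩
    simp only [Set.mem_iUnion, Multiset.mem_toFinset]
    refine ⟨s, ?_, ?_⟩
    · rw [mem_roots hres, IsRoot]
      have h3 := congrArg (eval₂ (evalRingHom s) c) hpq
      rw [eval₂_add, eval₂_mul, eval₂_mul, h1, h2, zero_mul, zero_mul, add_zero, eval₂_C] at h3
      exact h3.symm
    · simp only [Set.mem_ofPred_eq, IsRoot, eval_map]
      exact h1
  refine h ((Set.Finite.biUnion (Finset.finite_toSet _) (fun s _ => ?_)).subset hsub)
  exact Polynomial.finite_setOfPred_isRoot (hFm.map _).ne_zero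

end

theorem coeff_comp_X_add_C {R : Type} [CommRing R] {p : Polynomial R} (hp : p.Monic)
    (hd : 1 ≤ p.natDegree) (a : R) :
    (p.comp (X + C a)).coeff (p.natDegree - 1) = p.coeff (p.natDegree - 1) + p.natDegree * a := by
  have h1 : (p.comp (X + C a)) = taylor a p := rfl
  rw [h1, taylor_coeff]
  have h2 : (hasseDeriv (p.natDegree - 1) p).natDegree < 2 := by
    have := natDegree_hasseDeriv_le p (p.natDegree - 1)
    omega
  rw [eval_eq_sum_range' h2, Finset.sum_range_succ, Finset.sum_range_one]
  simp only [hasseDeriv_coeff, zero_add, Nat.choose_self, Nat.cast_one, one_mul, pow_zero, mul_one,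
    pow_one]
  have h3 : 1 + (p.natDegree - 1) = p.natDegree := by omega
  rw [h3]
  have h4 : p.coeff p.natDegree = 1 := hp
  have h5 : p.natDegree.choose (p.natDegree - 1) = p.natDegree := by
    obtain ⟨n, hn⟩ : ∃ n, p.natDegree = n + 1 := ⟨p.natDegree - 1, by omega⟩
    rw [hn]
    simp
  rw [h4, h5, mul_one]

/-- The set of the coefficients of a polynomial in `t` and `u`. -/
def coefs (F : Polynomial (Polynomial Qbar)) : Set Qbar :=
  ⋃ i ∈ F.support, ⋃ j ∈ (F.coeff i).support, {(F.coeff i).coeff j}

theorem coefs_finite (F : Polynomial (Polynomial Qbar)) : (coefs F).Finite :=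
  Set.Finite.biUnion (Finset.finite_toSet _) (fun _ _ =>
    Set.Finite.biUnion (Finset.finite_toSet _) (fun _ _ => Set.finite_singleton _))

theorem coeff_mem_of {F : Polynomial (Polynomial Qbar)} {E : IntermediateField ℚ Qbar}
    (h : coefs F ⊆ E) (i j : ℕ) : (F.coeff i).coeff j ∈ E := by
  by_cases hi : F.coeff i = 0
  · rw [hi, coeff_zero]; exact E.zero_mem
  · by_cases hj : (F.coeff i).coeff j = 0
    · rw [hj]; exact E.zero_mem
    · apply h
      simp only [coefs, Set.mem_iUnion]
      exact ⟨i, mem_support_iff.2 hi, j, mem_support_iff.2 hj, rfl⟩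

/-- Action of an automorphism on the coefficients. -/
noncomputable def act (σ : Qbar ≃ₐ[ℚ] Qbar) (F : Polynomial (Polynomial Qbar)) :
    Polynomial (Polynomial Qbar) :=
  F.map (mapRingHom (σ : Qbar →+* Qbar))

theorem act_eval (σ : Qbar ≃ₐ[ℚ] Qbar) (F : Polynomial (Polynomial Qbar)) (s c : Qbar) :
    eval₂ (evalRingHom (σ s)) (σ c) (act σ F) = σ (eval₂ (evalRingHom s) c F) := by
  have h1 := Polynomial.hom_eval₂ F (evalRingHom s) (σ : Qbar →+* Qbar) c
  have h2 : (σ : Qbar →+* Qbar).comp (evalRingHom s) =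
      (evalRingHom (σ s)).comp (mapRingHom (σ : Qbar →+* Qbar)) := by
    refine Polynomial.ringHom_ext (fun a => ?_) ?_ <;> simp
  unfold act
  rw [eval₂_map, ← h2]
  exact h1.symm

/-- For infinitely many points `s` there is a point `(s, c)` of the curve, such that `c` and the
elements of a given finite set are in `ℚ(s)`. -/
theorem infinite_prim {F : Polynomial (Polynomial Qbar)} (hF : Irreducible F) (hFm : F.Monic)
    (hdeg : 2 ≤ F.natDegree) {D : Polynomial Qbar} (hD : D ≠ 0) {E₀ : Set Qbar}
    (hE₀ : E₀.Finite) :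
    {s : Qbar | D.eval s ≠ 0 ∧ ∃ c : Qbar, eval₂ (evalRingHom s) c F = 0 ∧
      c ∈ IntermediateField.adjoin ℚ {s} ∧
      E₀ ⊆ (IntermediateField.adjoin ℚ {s} : IntermediateField ℚ Qbar)}.Infinite := by
  classical
  let E : IntermediateField ℚ Qbar := IntermediateField.adjoin ℚ (E₀ ∪ coefs F)
  have hEfin : FiniteDimensional ℚ E := by
    have : Finite ↑(E₀ ∪ coefs F) := (hE₀.union (coefs_finite F)).to_subtype
    have halg : Algebra.IsAlgebraic ℚ Qbar := (algebraicClosure.isAlgClosure ℚ ℂ).isAlgebraic
    exact IntermediateField.finiteDimensional_adjoin (fun x _ => (halg.isAlgebraic x).isIntegral)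
  obtain ⟨α, hα⟩ := @Field.exists_primitive_element ℚ E _ _ E.algebra' hEfin inferInstance
  have hgen : ∀ L : IntermediateField ℚ Qbar, (α : Qbar) ∈ L → E ≤ L := by
    intro L hL
    have h1 : IntermediateField.lift (IntermediateField.adjoin ℚ {α}) =
        IntermediateField.adjoin ℚ {(α : Qbar)} := IntermediateField.lift_adjoin_simple _ _ _
    rw [hα, IntermediateField.lift_top] at h1
    rw [h1]
    exact IntermediateField.adjoin_simple_le_iff.2 hL
  set N : ℕ := F.natDegree with hN
  have hN0 : (N : Qbar) ≠ 0 := by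
    have : N ≠ 0 := by omega
    exact_mod_cast this
  set e : Qbar := (F.coeff (N - 1)).eval 0 with he
  have heE : e ∈ E := by
    have h1 : e = (F.coeff (N - 1)).coeff 0 := by rw [he, ← coeff_zero_eq_eval_zero]
    rw [h1]
    exact coeff_mem_of (fun x hx => IntermediateField.subset_adjoin _ _ (Or.inr hx)) _ _
  set θ : Qbar := ((α : Qbar) - e) / N with hθ
  have hθE : θ ∈ E := div_mem (sub_mem α.2 heE) (natCast_mem E N)
  let c : ℕ → Qbar := fun n => n + θ
  have hcE : ∀ n, c n ∈ E := fun n => add_mem (natCast_mem E n) hθE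
  have hcinj : Function.Injective c := by
    intro n n' h
    have : (n : Qbar) = n' := add_right_cancel h
    exact_mod_cast this
  -- the bad values
  let Bad : Set ℕ := {n | ∃ s : Qbar, eval₂ (evalRingHom s) (c n) F = 0 ∧
    (α : Qbar) ∉ IntermediateField.adjoin ℚ {s}}
  have hBad : Bad.Finite := by
    by_contra hinf
    have hwit : ∀ n ∈ Bad, ∃ (s : Qbar) (σ : Qbar ≃ₐ[ℚ] Qbar),
        eval₂ (evalRingHom s) (c n) F = 0 ∧ σ s = s ∧ σ α ≠ α := by
      rintro n ⟨s, hs, hα'⟩
      let ℓ : IntermediateField ℚ Qbar := IntermediateField.adjoin ℚ {s}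
      have hclos : IsAlgClosure ℓ Qbar := ⟨inferInstance, Cover.instIsAlgebraicQbar ℓ⟩
      have hgal : IsGalois ℓ Qbar := IsAlgClosure.isGalois ℓ Qbar
      have h1 : ¬ (α : Qbar) ∈ (⊥ : IntermediateField ℓ Qbar) := by
        intro h
        obtain ⟨y, hy⟩ := IntermediateField.mem_bot.1 h
        exact hα' (by rw [← hy]; exact y.2)
      rw [InfiniteGalois.mem_bot_iff_fixed] at h1
      push Not at h1
      obtain ⟨σ, hσ⟩ := h1
      refine ⟨s, σ.restrictScalars ℚ, hs, ?_, hσ⟩
      exact σ.commutes ⟨s, IntermediateField.mem_adjoin_simple_self ℚ s⟩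
    choose! sn σn hsn hσs hσα using hwit
    let res : ℕ → (E →ₐ[ℚ] Qbar) := fun n => (σn n : Qbar →ₐ[ℚ] Qbar).comp E.val
    obtain ⟨β, hβ⟩ : ∃ β, {n | n ∈ Bad ∧ res n = β}.Infinite := by
      by_contra hno
      push Not at hno
      apply hinf
      have h1 : Bad ⊆ ⋃ β, {n | n ∈ Bad ∧ res n = β} := by
        intro n hn
        exact Set.mem_iUnion.2 ⟨res n, hn, rfl⟩
      exact (Set.finite_iUnion (fun β => hno β)).subset h1
    obtain ⟨n₀, hn₀, hn₀β⟩ := hβ.nonempty
    have hsame : ∀ n, res n = β → ∀ x ∈ E, σn n x = σn n₀ x := by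
      intro n hn x hx
      have h1 : res n = res n₀ := hn.trans hn₀β.symm
      exact AlgHom.congr_fun h1 ⟨x, hx⟩
    set a : Qbar := σn n₀ θ - θ with ha
    let F₀ := act (σn n₀) F
    have hact : ∀ n, res n = β → act (σn n) F = F₀ := by
      intro n hn
      ext i j
      simp only [F₀, act, coeff_map, coe_mapRingHom]
      exact congrArg _ (hsame n hn _ (coeff_mem_of
        (fun x hx => IntermediateField.subset_adjoin _ _ (Or.inr hx)) i j))
    let G : Polynomial (Polynomial Qbar) := F₀.comp (X + C (C a))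
    have hG : ∀ s c : Qbar, eval₂ (evalRingHom s) c G = eval₂ (evalRingHom s) (c + a) F₀ := by
      intro s c
      simp only [G]
      rw [eval₂_comp]
      simp
    have hdvd : F ∣ G := by
      refine dvd_of_infinite hF hFm ((hβ.image (f := c) hcinj.injOn).mono ?_)
      rintro _ ⟨n, ⟨hn, hnβ⟩, rfl⟩
      refine ⟨sn n, hsn n hn, ?_⟩
      rw [hG]
      have h1 := act_eval (σn n) F (sn n) (c n)
      rw [hsn n hn, map_zero, hσs n hn, hact n hnβ] at h1
      have h2 : σn n (c n) = c n + a := by
        rw [hsame n hnβ _ (hcE n)]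
        simp only [c, map_add, map_natCast, ha]
        ring
      rw [h2] at h1
      exact h1
    have hF₀m : F₀.Monic := hFm.map _
    have hF₀d : F₀.natDegree = N := hFm.natDegree_map _
    have hGm : G.Monic := hF₀m.comp_X_add_C _
    have hGd : G.natDegree = N := by
      have : G.natDegree = F₀.natDegree * (X + C (C a) : Polynomial (Polynomial Qbar)).natDegree :=
        natDegree_comp
      rw [this, natDegree_X_add_C, mul_one, hF₀d]
    have hFG : F = G := (eq_of_monic_of_dvd_of_natDegree_le hFm hGm hdvd hGd.le).symm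
    have h3 : F.coeff (N - 1) = F₀.coeff (N - 1) + (N : Polynomial Qbar) * C a := by
      have h4 := coeff_comp_X_add_C hF₀m (by omega) (C a)
      rw [hF₀d] at h4
      rw [← h4]
      exact congrArg (fun p => p.coeff (N - 1)) hFG
    have h5 : e = σn n₀ e + N * a := by
      have h6 := congrArg (fun p => p.eval 0) h3
      simp only [eval_add, eval_mul, eval_natCast, eval_C] at h6
      have h7 : (F₀.coeff (N - 1)).eval 0 = σn n₀ e := by
        simp only [F₀, act, coeff_map, coe_mapRingHom, he]
        rw [← coeff_zero_eq_eval_zero, coeff_map, coeff_zero_eq_eval_zero]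
        rfl
      rw [h7] at h6
      exact h6
    apply hσα n₀ hn₀
    have h8 : (N : Qbar) * θ = α - e := by
      rw [hθ]; field_simp
    have h9 : (N : Qbar) * σn n₀ θ = σn n₀ α - σn n₀ e := by
      have := congrArg (σn n₀) h8
      rw [map_mul, map_natCast, map_sub] at this
      exact this
    have h10 : (N : Qbar) * a = σn n₀ α - σn n₀ e - (α - e) := by
      rw [ha, mul_sub, h8, h9]
    rw [h10] at h5
    linear_combination -h5
  have hgood : (c '' Badᶜ).Infinite :=
    (hBad.infinite_compl).image hcinj.injOn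
  refine (infinite_points_of hF hFm hdeg hD hgood).mono ?_
  rintro s ⟨hDs, _, ⟨n, hn, rfl⟩, hs⟩
  have hαs : (α : Qbar) ∈ IntermediateField.adjoin ℚ {s} := by
    by_contra h
    exact hn ⟨s, hs, h⟩
  have hle := hgen _ hαs
  exact ⟨hDs, c n, hs, hle (hcE n), fun x hx =>
    hle (IntermediateField.subset_adjoin _ _ (Or.inl hx))⟩

end Pool.Agent.Helper64.Per2
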