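import Pool.Agent.Helper64.Per2.Norm
import Pool.Agent.Helper64.Per2.Prim

/-!
# Period relations: families with finite monodromy, existence of relations
-/

open Polynomial Matrix

namespace Pool.Agent.Helper64.Per2

open Pool.Agent.Helper64.Per

/-- A polynomial in `t` and `u` as a polynomial in all coordinates. -/
noncomputable def inTU {σ : Type} (j : σ) (p : Polynomial (Polynomial Qbar)) :
    MvPolynomial (Option σ) ℂ :=
  eval₂ (inT σ) (MvPolynomial.X (some j)) p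

theorem eval_inTU {σ : Type} (j : σ) (p : Polynomial (Polynomial Qbar)) (t : ℂ) (x : σ → ℂ) :
    MvPolynomial.eval (pt t x) (inTU j p) = eval₂ (ev t) (x j) p := by
  unfold inTU
  rw [Polynomial.hom_eval₂]
  congr 1
  · exact RingHom.ext (fun q => eval_inT q t x)
  · simp [pt]

theorem map_inTU {ι : Type} [Fintype ι] {σ : Type} (N : Matrix ι ι (Polynomial (Polynomial Qbar)))
    (j : σ) (Q : Matrix ι ι ℂ) (t : ℂ) (x : σ → ℂ) :
    (N.map (inTU j) * Q.map MvPolynomial.C : Matrix ι ι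
      (MvPolynomial (Option σ) ℂ)).map (MvPolynomial.eval (pt t x)) = evN N t (x j) * Q := by
  rw [Matrix.map_mul]
  congr 1
  · ext a b
    exact eval_inTU j _ t x
  · ext a b
    simp

variable {f : Cover}

theorem exists_branch_value {s c : Qbar} (hc : eval₂ (evalRingHom s) c f.F = 0)
    (b : f.Branch (s : ℂ)) : ∃ k, b.x k (s : ℂ) = (c : ℂ) := by
  have hcF : (f.F.map (ev (s : ℂ))).eval (c : ℂ) = 0 := by
    rw [eval_map]
    have h1 := congrArg (algebraMap Qbar ℂ) hc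
    rw [Polynomial.hom_eval₂, ← ev_coe, map_zero] at h1
    exact h1
  rw [Cover.map_eq_prod b b.mem, eval_prod] at hcF
  obtain ⟨k, _, hk⟩ := Finset.prod_eq_zero_iff.1 hcF
  refine ⟨k, ?_⟩
  rw [eval_sub, eval_X, eval_C] at hk
  exact (sub_eq_zero.1 hk).symm

theorem eval₂_ev_coe (F : Polynomial (Polynomial Qbar)) (s c : Qbar) :
    eval₂ (ev (s : ℂ)) (c : ℂ) F = ((eval₂ (evalRingHom s) c F : Qbar) : ℂ) := by
  have h1 := Polynomial.hom_eval₂ F (evalRingHom s) (algebraMap Qbar ℂ) c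
  rw [← ev_coe] at h1
  exact h1.symm

namespace FiniteFamily

variable {ι : Type} [Fintype ι] [DecidableEq ι] (X : FiniteFamily f ι)

/-- All period matrices above `s` are in `B_{P,s}`. -/
theorem mem_BFibre_sheet (hF : Irreducible f.F) {s : Qbar} (hs : (s : ℂ) ∈ f.S)
    (b : f.Branch (s : ℂ)) (k : Fin f.deg) {u : Qbar} (hu : eval₂ (evalRingHom s) u f.F = 0) :
    evN X.N (s : ℂ) (u : ℂ) * X.P₀ ∈
      BFibre b.U (fun t => evN X.N t (b.x k t) * X.P₀) (s : ℂ) := by
  obtain ⟨y, hyk, _, _, hy⟩ := exists_special b hF f.monic k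
    (fun t ht => Cover.eval₂_root b ht k) hu
  have h1 := mem_BFibre_of_special b.isOpen (x := fun t j => b.x j t) (branch_cont b)
    (branch_alg b) hy (X.N.map (inTU k) * X.P₀.map MvPolynomial.C) (by
      rw [map_inTU, Matrix.det_mul]
      refine IsUnit.mul ?_ X.det₀
      refine X.det _ hs _ ?_
      rw [eval₂_ev_coe, hyk, hu]
      rfl)
    (P := fun t => evN X.N t (b.x k t) * X.P₀) (fun t _ => by rw [map_inTU])
  rw [map_inTU, hyk] at h1
  exact h1

/-- The monodromy relations hold at all points. -/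
theorem exists_sheet (hF : Irreducible f.F) {ρ : GL ι ℚ} (hρ : ρ ∈ X.Mono) {s c : Qbar}
    (hc : eval₂ (evalRingHom s) c f.F = 0) : ∃ u : Qbar, eval₂ (evalRingHom s) u f.F = 0 ∧
      evN X.N (s : ℂ) (u : ℂ) * X.P₀ = evN X.N (s : ℂ) (c : ℂ) * X.P₀ * toC ρ := by
  obtain ⟨s₀, b, k, l, hkl⟩ := hρ
  obtain ⟨y, hyk, hyF, _, hy⟩ := exists_special b hF f.monic k
    (fun t ht => Cover.eval₂_root b ht k) hc
  refine ⟨y l, hyF l, ?_⟩
  have hmap : ∀ (t : ℂ) (x : Fin f.deg → ℂ),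
      (X.N.map (inTU l) * X.P₀.map MvPolynomial.C -
        X.N.map (inTU k) * (X.P₀ * toC ρ).map MvPolynomial.C : Matrix ι ι
        (MvPolynomial (Option (Fin f.deg)) ℂ)).map (MvPolynomial.eval (pt t x)) =
      evN X.N t (x l) * X.P₀ - evN X.N t (x k) * (X.P₀ * toC ρ) := by
    intro t x
    rw [Matrix.map_sub _ (map_sub _), map_inTU, map_inTU]
  have h1 := matrix_special b.isOpen (x := fun t j => b.x j t) (branch_cont b)
    (branch_alg b) hy (X.N.map (inTU l) * X.P₀.map MvPolynomial.C -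
        X.N.map (inTU k) * (X.P₀ * toC ρ).map MvPolynomial.C) (fun t ht => by
      rw [hmap, hkl t ht, Matrix.mul_assoc, sub_self])
  rw [hmap, hyk] at h1
  rw [Matrix.mul_assoc (evN X.N (s : ℂ) (c : ℂ))]
  exact sub_eq_zero.1 h1

theorem exists_sheets_of_mono {ρ : GL ι ℚ} (hρ : ρ ∈ X.Mono)
    (hne : toC ρ ≠ 1) : 2 ≤ f.deg := by
  obtain ⟨s₀, b, k, l, hkl⟩ := hρ
  by_contra hlt
  have hkl' : k = l := by
    apply Fin.ext
    have := k.2
    have := l.2
    omega
  subst hkl'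
  apply hne
  have h1 := hkl s₀ b.mem
  have h2 : IsUnit (evN X.N s₀ (b.x k s₀) * X.P₀).det := by
    rw [Matrix.det_mul]
    exact (X.det _ (b.sub b.mem) _ (Cover.eval₂_root b b.mem k)).mul X.det₀
  have h3 := congrArg (fun M => (evN X.N s₀ (b.x k s₀) * X.P₀)⁻¹ * M) h1
  have h4 : (evN X.N s₀ (b.x k s₀) * X.P₀)⁻¹ * (evN X.N s₀ (b.x k s₀) * X.P₀ * toC ρ) =
      toC ρ := by
    rw [← Matrix.mul_assoc, Matrix.nonsing_inv_mul _ h2, Matrix.one_mul]
  have h5 : (evN X.N s₀ (b.x k s₀) * X.P₀)⁻¹ * (evN X.N s₀ (b.x k s₀) * X.P₀) = 1 :=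
    Matrix.nonsing_inv_mul _ h2
  exact h4.symm.trans (h3.symm.trans h5)

/-- If the relations of degree at most `δ` of `P₀` are not stable, there are infinitely many points
with a relation of degree at most `δ` over `ℚ(s)`. -/
theorem infinite_of_not_stable (hF : Irreducible f.F) {δ : ℕ} (hst : ¬ X.Stable δ) :
    {s : Qbar | (s : ℂ) ∈ f.S ∧ ∀ (b : f.Branch (s : ℂ)) (k : Fin f.deg) (g : GL ι ℚ)
      (κ : IntermediateField ℚ Qbar), s ∈ κ →
        HasRelation b.U (X.P b k g) (s : ℂ) κ δ}.Infinite := by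
  classical
  unfold Stable at hst
  push Not at hst
  obtain ⟨ρ, hρ, q, hqδ, hq0, hqρ⟩ := hst
  have hne : toC ρ ≠ 1 := by
    intro h
    rw [h, Matrix.mul_one] at hqρ
    exact hqρ hq0
  have hdeg : 2 ≤ f.F.natDegree := X.exists_sheets_of_mono hρ hne
  -- the finite set of the coefficients
  let E₀ : Set Qbar := (⋃ a, ⋃ b, coefs (X.N a b)) ∪ (⋃ d ∈ q.support, {q.coeff d})
  have hE₀ : E₀.Finite := by
    refine Set.Finite.union ?_ ?_
    · exact Set.finite_iUnion (fun a => Set.finite_iUnion (fun b => coefs_finite _))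
    · exact Set.Finite.biUnion (Finset.finite_toSet _) (fun _ _ => Set.finite_singleton _)
  refine (infinite_prim hF f.monic hdeg f.D_ne hE₀).mono ?_
  rintro s ⟨hDs, c, hc, hcs, hEs⟩
  have hs : (s : ℂ) ∈ f.S := by
    change ev (s : ℂ) f.D ≠ 0
    rw [ev_coe_apply]
    exact fun h => hDs (Subtype.ext h)
  refine ⟨hs, fun b k g κ hsκ => ?_⟩
  have hle : (IntermediateField.adjoin ℚ {s} : IntermediateField ℚ Qbar) ≤ κ :=
    IntermediateField.adjoin_simple_le_iff.2 hsκ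
  have hcκ : c ∈ κ := hle hcs
  obtain ⟨k₁, hk₁⟩ := exists_branch_value hc b
  -- the matrix `N(s, c)` over `κ`
  have hNκ : ∀ a b, eval₂ (evalRingHom s) c (X.N a b) ∈ κ := by
    intro a b
    have hcoef : coefs (X.N a b) ⊆ κ := fun x hx => hle (hEs (Or.inl
      (Set.mem_iUnion.2 ⟨a, Set.mem_iUnion.2 ⟨b, hx⟩⟩)))
    rw [eval₂_eq_sum_range]
    refine sum_mem (fun i _ => mul_mem ?_ (pow_mem hcκ i))
    rw [coe_evalRingHom, eval_eq_sum_range]
    exact sum_mem (fun j _ => mul_mem (coeff_mem_of hcoef i j) (pow_mem hsκ j))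
  let Nκ : Matrix ι ι κ := Matrix.of fun a b => ⟨_, hNκ a b⟩
  have hN : Nκ.map (algebraMap κ ℂ) = evN X.N (s : ℂ) (c : ℂ) := by
    rw [evN_coe]
    ext a b
    rfl
  have hNdet : IsUnit (evN X.N (s : ℂ) (c : ℂ)).det := by
    refine X.det _ hs _ ?_
    rw [eval₂_ev_coe, hc]
    rfl
  have hNκdet : IsUnit Nκ.det := by
    rw [isUnit_iff_ne_zero]
    intro h0
    have h1 := RingHom.map_det (algebraMap κ ℂ) Nκ
    rw [h0, map_zero, RingHom.mapMatrix_apply, hN] at h1
    exact hNdet.ne_zero h1.symm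
  have hNinv : Nκ⁻¹.map (algebraMap κ ℂ) * evN X.N (s : ℂ) (c : ℂ) = 1 := by
    rw [← hN, ← Matrix.map_mul, Matrix.nonsing_inv_mul _ hNκdet]
    exact Matrix.map_one _ (map_zero _) (map_one _)
  -- the relation
  obtain ⟨qκ, hqκ⟩ : ∃ qκ : MvPolynomial (ι × ι) κ, qκ.map (algebraMap κ Qbar) = q := by
    have h1 : q ∈ Set.range (MvPolynomial.map (σ := ι × ι) (algebraMap κ Qbar)) := by
      rw [MvPolynomial.mem_range_map_iff_coeffs_subset]
      intro x hx
      obtain ⟨d, hd, rfl⟩ := MvPolynomial.mem_coeffs_iff.1 hx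
      exact ⟨⟨_, hle (hEs (Or.inr (Set.mem_iUnion.2 ⟨d, Set.mem_iUnion.2 ⟨hd, rfl⟩⟩)))⟩, rfl⟩
    exact h1
  have hqκd : qκ.totalDegree ≤ δ := by
    refine le_trans (le_of_eq ?_) hqδ
    rw [← hqκ]
    unfold MvPolynomial.totalDegree
    rw [MvPolynomial.support_map_of_injective _ (algebraMap κ Qbar).injective]
  have hr : ∀ M : Matrix ι ι ℂ, evK κ (sub Nκ⁻¹ 1 qκ)
      (evN X.N (s : ℂ) (c : ℂ) * M) = MvPolynomial.aeval (fun p => M p.1 p.2) q := by
    intro M
    have h1 : evK κ (sub Nκ⁻¹ 1 qκ) (evN X.N (s : ℂ) (c : ℂ) * M) =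
        evK κ qκ (Nκ⁻¹.map (algebraMap κ ℂ) * (evN X.N (s : ℂ) (c : ℂ) * M)) := by
      unfold evK
      rw [MvPolynomial.aeval_def, sub_eval₂, MvPolynomial.aeval_def,
        Matrix.map_one _ (map_zero _) (map_one _), mul_one]
    rw [h1, ← Matrix.mul_assoc, hNinv, Matrix.one_mul, evK_map, hqκ]
  have hmain : HasRelation b.U (fun t => evN X.N t (b.x k₁ t) * X.P₀) (s : ℂ) κ δ := by
    refine ⟨sub Nκ⁻¹ 1 qκ, (totalDegree_sub_le _ _ _).trans hqκd, ?_, ?_⟩
    · intro M hM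
      refine evK_ZClosure (P := evN X.N (s : ℂ) (b.x k₁ (s : ℂ)) * X.P₀) ?_ hM
      rw [hk₁, hr]
      exact hq0
    · intro hall
      obtain ⟨u, hu, huρ⟩ := X.exists_sheet hF hρ hc
      have h1 := hall _ (X.mem_BFibre_sheet hF hs b k₁ hu)
      rw [huρ, Matrix.mul_assoc, hr] at h1
      exact hqρ h1
  obtain ⟨ρ', hρ'⟩ := X.flat _ b k₁ k
  have h1 := hasRelation_mul_right (hasRelation_mul_right hmain ρ') g
  refine hasRelation_congr b.mem (fun t ht => ?_) h1
  unfold P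
  rw [hρ' t ht]
  rfl

theorem holds_iff (hF : Irreducible f.F) (K : IntermediateField ℚ Qbar) (δ : ℕ) :
    X.Holds K δ ↔ X.Stable δ := by
  constructor
  · intro h
    by_contra hst
    obtain ⟨s, hs, hrel⟩ := (X.infinite_of_not_stable hF hst).nonempty
    obtain ⟨b⟩ := f.exists_branch hs
    have hd : f.F.natDegree ≠ 0 := by
      intro h0
      have h1 := hF
      rw [f.monic.natDegree_eq_zero.1 h0] at h1
      exact h1.not_isUnit isUnit_one
    refine h s hs b ⟨0, Nat.pos_of_ne_zero hd⟩ 1 (hrel b _ 1 _ ?_)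
    have h2 : s ∈ IntermediateField.adjoin ℚ {s} := IntermediateField.mem_adjoin_simple_self ℚ s
    exact (le_sup_right : IntermediateField.adjoin ℚ {s} ≤ K ⊔ _) h2
  · intro hst s hs b k g
    exact X.not_hasRelation_of_stable hst hs b k g _

/-- A matrix `β` over `ℚ̄` such that `α P₀ = P₀ β` for a matrix `α` over `ℚ̄`, and which does not
commute with the monodromy, gives an unstable linear relation. -/
theorem not_stable_of_endomorphism {α β : Matrix ι ι Qbar}
    (hαβ : α.map (algebraMap Qbar ℂ) * X.P₀ = X.P₀ * β.map (algebraMap Qbar ℂ))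
    {ρ : GL ι ℚ} (hρ : ρ ∈ X.Mono)
    (hne : toC ρ * β.map (algebraMap Qbar ℂ) ≠ β.map (algebraMap Qbar ℂ) * toC ρ) {δ : ℕ}
    (hδ : 1 ≤ δ) : ¬ X.Stable δ := by
  intro hst
  apply hne
  let q : ι → ι → MvPolynomial (ι × ι) Qbar := fun a b =>
    ∑ c, MvPolynomial.C (α a c) * MvPolynomial.X (c, b) -
      ∑ c, MvPolynomial.C (β c b) * MvPolynomial.X (a, c)
  have hq : ∀ a b (M : Matrix ι ι ℂ),
      MvPolynomial.aeval (fun p => M p.1 p.2) (q a b) =
        (α.map (algebraMap Qbar ℂ) * M - M * β.map (algebraMap Qbar ℂ)) a b := by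
    intro a b M
    simp only [q, map_sub, map_sum, map_mul, MvPolynomial.aeval_X, Matrix.sub_apply,
      Matrix.mul_apply, Matrix.map_apply, MvPolynomial.aeval_C]
    congr 1
    exact Finset.sum_congr rfl (fun c _ => mul_comm _ _)
  have hd : ∀ a b, (q a b).totalDegree ≤ δ := by
    intro a b
    have h1 : ∀ (x : Qbar) (p : ι × ι),
        (MvPolynomial.C x * MvPolynomial.X p : MvPolynomial (ι × ι) Qbar).totalDegree
          ≤ 1 := by
      intro x p
      refine (MvPolynomial.totalDegree_mul _ _).trans ?_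
      rw [MvPolynomial.totalDegree_C, MvPolynomial.totalDegree_X]
    refine (MvPolynomial.totalDegree_sub _ _).trans (max_le ?_ ?_)
    · exact MvPolynomial.totalDegree_finsetSum_le (fun c _ => (h1 _ _).trans hδ)
    · exact MvPolynomial.totalDegree_finsetSum_le (fun c _ => (h1 _ _).trans hδ)
  have h2 : α.map (algebraMap Qbar ℂ) * (X.P₀ * toC ρ) -
      X.P₀ * toC ρ * β.map (algebraMap Qbar ℂ) = 0 := by
    ext a b
    rw [← hq]
    refine hst ρ hρ _ (hd a b) ?_
    rw [hq, hαβ, sub_self]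
    rfl
  rw [← Matrix.mul_assoc, hαβ, Matrix.mul_assoc, Matrix.mul_assoc, ← Matrix.mul_sub] at h2
  have h3 := congrArg (fun M => X.P₀⁻¹ * M) h2
  rw [← Matrix.mul_assoc, Matrix.nonsing_inv_mul _ X.det₀, Matrix.one_mul, Matrix.mul_zero] at h3
  exact (sub_eq_zero.1 h3).symm

end FiniteFamily

end Pool.Agent.Helper64.Per2
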