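import Pool.Agent.Helper64.Per2.Weil

/-!
# Period relations: families with finite monodromy, absence of relations
-/

open Polynomial Matrix

namespace Pool.Agent.Helper64.Per2

open Pool.Agent.Helper64.Per

section

variable {ι : Type} [Fintype ι] [DecidableEq ι]

omit [Fintype ι] [DecidableEq ι] in
theorem evK_map (κ : IntermediateField ℚ Qbar) (r : MvPolynomial (ι × ι) κ) (M : Matrix ι ι ℂ) :
    evK κ r M = MvPolynomial.aeval (fun p => M p.1 p.2) (r.map (algebraMap κ Qbar)) := by
  unfold evK
  rw [MvPolynomial.aeval_map_algebraMap]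

/-- A relation holds on the closure of a point iff it holds at the point. -/
theorem evK_ZClosure {κ : IntermediateField ℚ Qbar} {r : MvPolynomial (ι × ι) κ}
    {P M : Matrix ι ι ℂ} (h : evK κ r P = 0) (hM : M ∈ ZClosure P) : evK κ r M = 0 := by
  rw [evK_map] at h ⊢
  exact hM.2 _ h

theorem hasRelation_congr {U : Set ℂ} {P P' : ℂ → Matrix ι ι ℂ} {s : ℂ} (hs : s ∈ U)
    (h : ∀ t ∈ U, P t = P' t) {κ : IntermediateField ℚ Qbar} {δ : ℕ}
    (hr : HasRelation U P s κ δ) : HasRelation U P' s κ δ := by
  obtain ⟨r, h1, h2, h3⟩ := hr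
  refine ⟨r, h1, ?_, ?_⟩
  · rw [← h s hs]; exact h2
  · intro hall
    apply h3
    rintro M ⟨hM1, hM2⟩
    refine hall M ⟨hM1, fun q hq => hM2 q (fun t ht => ?_)⟩
    rw [h t ht]
    exact hq t ht

end

variable {ι : Type} {f : Cover}

theorem evN_coe (N : Matrix ι ι (Polynomial (Polynomial Qbar))) (s c : Qbar) :
    evN N (s : ℂ) (c : ℂ) = (N.map fun p => eval₂ (evalRingHom s) c p).map (algebraMap Qbar ℂ) := by
  ext i j
  simp only [evN, Matrix.map_apply]
  rw [Polynomial.hom_eval₂, ← ev_coe]
  rfl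

namespace FiniteFamily

variable [Fintype ι] [DecidableEq ι] (X : FiniteFamily f ι)

/-- The matrices `N(s, y_l) P₀` satisfy all relations of `N(s, y_k) P₀` of degree at most `δ`, if
the space of relations of `P₀` is stable. -/
theorem evK_sheets {δ : ℕ} (hst : X.Stable δ) {s : Qbar} (b : f.Branch (s : ℂ)) (k l : Fin f.deg)
    {κ : IntermediateField ℚ Qbar} {r : MvPolynomial (ι × ι) κ} (hr : r.totalDegree ≤ δ)
    (h : evK κ r (evN X.N (s : ℂ) (b.x k (s : ℂ)) * X.P₀) = 0) :
    evK κ r (evN X.N (s : ℂ) (b.x l (s : ℂ)) * X.P₀) = 0 := by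
  obtain ⟨ρ, hρ⟩ := X.flat _ b k l
  obtain ⟨y, hy⟩ := branch_alg b s b.mem
  let A : Matrix ι ι Qbar := X.N.map fun p => eval₂ (evalRingHom s) (y k) p
  have hA : evN X.N (s : ℂ) (b.x k (s : ℂ)) = A.map (algebraMap Qbar ℂ) := by
    rw [hy k, evN_coe]
  have key : ∀ M : Matrix ι ι ℂ,
      MvPolynomial.aeval (fun p => M p.1 p.2) (sub A 1 (r.map (algebraMap κ Qbar))) =
        evK κ r (A.map (algebraMap Qbar ℂ) * M) := by
    intro M
    rw [evK_map, MvPolynomial.aeval_def, sub_eval₂, MvPolynomial.aeval_def,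
      Matrix.map_one _ (map_zero _) (map_one _), mul_one]
  rw [hρ _ b.mem, hA, Matrix.mul_assoc, ← key]
  refine hst ρ ⟨_, b, k, l, hρ⟩ _ ?_ ?_
  · refine (totalDegree_sub_le _ _ _).trans (le_trans ?_ hr)
    refine Finset.sup_mono ?_
    exact MvPolynomial.support_map_subset _ _
  · rw [key, ← hA]
    exact h

/-- The norm from `T` to `S` of the polynomials which vanish on the components of the closure of
the graph. -/
theorem evK_eq_zero_of_sheets {s : Qbar} (hs : (s : ℂ) ∈ f.S) (b : f.Branch (s : ℂ))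
    (k : Fin f.deg) {κ : IntermediateField ℚ Qbar} {r : MvPolynomial (ι × ι) κ}
    (h : ∀ l, evK κ r (evN X.N (s : ℂ) (b.x l (s : ℂ)) * X.P₀) = 0)
    {M : Matrix ι ι ℂ}
    (hM : M ∈ BFibre b.U (fun t => evN X.N t (b.x k t) * X.P₀) (s : ℂ)) : evK κ r M = 0 := by
  classical
  obtain ⟨y, hy⟩ := branch_alg b s b.mem
  have hyinj : Function.Injective y := by
    intro i j hij
    apply b.inj _ b.mem
    change b.x i s = b.x j s
    rw [hy i, hy j, hij]
  let R := MvPolynomial (ι × ι) (Polynomial Qbar)
  let d := r.totalDegree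
  let cst : Qbar →+* Polynomial R := Polynomial.C.comp (MvPolynomial.C.comp Polynomial.C)
  let φ : κ →+* Polynomial R := cst.comp (algebraMap κ Qbar)
  let up : Polynomial (Polynomial Qbar) →+* Polynomial R := Polynomial.mapRingHom MvPolynomial.C
  let upu : Polynomial Qbar →+* Polynomial R := Polynomial.mapRingHom
    (MvPolynomial.C.comp Polynomial.C : Qbar →+* R)
  let NR : Matrix ι ι (Polynomial R) := X.N.map up
  let A : Fin f.deg → Matrix ι ι Qbar := fun l =>
    X.N.map fun p => eval₂ (evalRingHom s) (y l) p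
  let G : Matrix ι ι (Polynomial R) := (gen (Polynomial Qbar)).map Polynomial.C
  let W : Fin f.deg → Matrix ι ι (Polynomial R) := fun l =>
    (A l).map cst * NR.adjugate * G
  let p : Polynomial R := ∑ l, upu (Lagrange.basis Finset.univ y l) *
    hev r d φ (fun q => W l q.1 q.2) NR.det
  let Q : R := resultant (f.F.map MvPolynomial.C) p f.deg p.natDegree
  -- evaluation
  have hψ : ∀ (t u : ℂ) (M : Matrix ι ι ℂ), eval₂ (evR t M) u p =
      ∑ l, Polynomial.aeval u (Lagrange.basis Finset.univ y l) *
        hev r d (algebraMap κ ℂ) (fun q => ((A l).map (algebraMap Qbar ℂ) *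
          (evN X.N t u).adjugate * M) q.1 q.2) (evN X.N t u).det := by
    intro t u M
    let ψ : Polynomial R →+* ℂ := eval₂RingHom (evR t M) u
    have hcst : ψ.comp cst = algebraMap Qbar ℂ := by
      refine RingHom.ext (fun a => ?_)
      simp only [ψ, cst, RingHom.comp_apply, coe_eval₂RingHom, eval₂_C]
      rw [evR_C, ev_C]
      rfl
    have hup : ∀ q, ψ (up q) = eval₂ (ev t) u q := by
      intro q
      simp only [ψ, up, coe_eval₂RingHom, coe_mapRingHom, eval₂_map]
      congr 1
      refine RingHom.ext (fun a => ?_)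
      exact evR_C t M a
    have hupu : ∀ q, ψ (upu q) = Polynomial.aeval u q := by
      intro q
      simp only [ψ, upu, coe_eval₂RingHom, coe_mapRingHom, eval₂_map]
      rw [Polynomial.aeval_def]
      congr 1
      refine RingHom.ext (fun a => ?_)
      simp only [RingHom.comp_apply]
      rw [evR_C, ev_C]
      rfl
    have hNR : NR.map ψ = evN X.N t u := by
      ext i j
      exact hup _
    have hG : G.map ψ = M := by
      have : G.map ψ = (gen (Polynomial Qbar) : Matrix ι ι R).map (evR t M) := by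
        ext i j
        simp only [G, ψ, Matrix.map_apply, coe_eval₂RingHom, eval₂_C]
      rw [this, evR_gen]
    have h1 : eval₂ (evR t M) u p = ψ p := rfl
    rw [h1]
    simp only [p]
    rw [map_sum]
    refine Finset.sum_congr rfl (fun l _ => ?_)
    rw [map_mul, hupu]
    congr 1
    refine (hev_map r d φ (fun q : ι × ι => W l q.1 q.2) NR.det ψ).trans ?_
    have hφ : ψ.comp φ = algebraMap κ ℂ := by
      simp only [φ]
      rw [← RingHom.comp_assoc, hcst]
      rfl
    rw [hφ]
    congr 1
    · funext q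
      have h6 : (W l).map ψ = (A l).map (algebraMap Qbar ℂ) * (evN X.N t u).adjugate * M := by
        simp only [W]
        rw [Matrix.map_mul, Matrix.map_mul, hG]
        congr 2
        · ext i j
          exact RingHom.congr_fun hcst _
        · have := RingHom.map_adjugate ψ NR
          rw [RingHom.mapMatrix_apply, RingHom.mapMatrix_apply, hNR] at this
          exact this
      rw [← h6]
      rfl
    · have := RingHom.map_det ψ NR
      rw [RingHom.mapMatrix_apply, hNR] at this
      exact this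
  have hQ : ∀ (t : ℂ) (M : Matrix ι ι ℂ), evM Q t M =
      (((f.F.map (ev t)).roots.map fun u => eval₂ (evR t M) u p)).prod := by
    intro t M
    have hFt : (f.F.map (MvPolynomial.C : Polynomial Qbar →+* R)).map (evR t M) =
        f.F.map (ev t) := by
      rw [Polynomial.map_map]
      congr 1
      refine RingHom.ext (fun a => ?_)
      exact evR_C t M a
    have hdeg : (f.F.map (ev t)).natDegree = f.deg := f.monic.natDegree_map _
    rw [evM_eq]
    simp only [Q]
    rw [← resultant_map_map, hFt, ← hdeg,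
      resultant_eq_prod_eval _ _ _ natDegree_map_le (IsAlgClosed.splits _),
      (f.monic.map _).leadingCoeff, one_pow, one_mul]
    congr 1
    refine Multiset.map_congr rfl (fun u _ => ?_)
    rw [eval_map]
  have hroots : ∀ t ∈ b.U, ∀ u, u ∈ (f.F.map (ev t)).roots ↔ ∃ l, b.x l t = u := by
    intro t ht u
    rw [mem_roots (f.monic.map _).ne_zero, IsRoot, Cover.map_eq_prod b ht, eval_prod,
      Finset.prod_eq_zero_iff]
    constructor
    · rintro ⟨l, _, hl⟩
      refine ⟨l, ?_⟩
      rw [eval_sub, eval_X, eval_C] at hl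
      exact (sub_eq_zero.1 hl).symm
    · rintro ⟨l, rfl⟩
      exact ⟨l, Finset.mem_univ _, by simp⟩
  have hAl : ∀ l, (A l).map (algebraMap Qbar ℂ) = evN X.N (s : ℂ) (b.x l (s : ℂ)) := by
    intro l
    rw [hy l, evN_coe]
  -- vanishing on the graph
  have h1 := hM.2 Q (fun t ht => by
    rw [hQ]
    refine Multiset.prod_eq_zero ?_
    rw [Multiset.mem_map]
    refine ⟨b.x k t, (hroots t ht _).2 ⟨k, rfl⟩, ?_⟩
    rw [hψ]
    refine Finset.sum_eq_zero (fun l _ => ?_)
    rw [hev_eq r le_rfl _ _ (fun q => ((A l).map (algebraMap Qbar ℂ) * X.P₀) q.1 q.2) _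
      (fun q => by
        have : (A l).map (algebraMap Qbar ℂ) * (evN X.N t (b.x k t)).adjugate *
            (evN X.N t (b.x k t) * X.P₀) =
            (evN X.N t (b.x k t)).det • ((A l).map (algebraMap Qbar ℂ) * X.P₀) := by
          rw [← Matrix.mul_assoc, Matrix.mul_assoc ((A l).map (algebraMap Qbar ℂ)),
            Matrix.adjugate_mul, Matrix.mul_smul, Matrix.mul_one, Matrix.smul_mul]
        rw [this]
        rfl)]
    have h2 := h l
    rw [← hAl] at h2
    unfold evK at h2
    rw [MvPolynomial.aeval_def] at h2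
    rw [h2, mul_zero, mul_zero])
  -- the value at `(s, M)`
  rw [hQ, Multiset.prod_eq_zero_iff, Multiset.mem_map] at h1
  obtain ⟨u, hu, h2⟩ := h1
  obtain ⟨l, rfl⟩ := (hroots _ b.mem u).1 hu
  rw [hψ, Finset.sum_eq_single l] at h2
  · have h3 : Polynomial.aeval (b.x l (s : ℂ)) (Lagrange.basis Finset.univ y l) = 1 := by
      rw [hy l]
      have := Polynomial.aeval_algebraMap_apply ℂ (y l) (Lagrange.basis Finset.univ y l)
      have h4 : (Lagrange.basis Finset.univ y l).eval (y l) = 1 :=
        Lagrange.eval_basis_self hyinj.injOn (Finset.mem_univ l)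
      rw [Polynomial.coe_aeval_eq_eval, h4, map_one] at this
      exact this
    rw [h3, one_mul] at h2
    rw [hev_eq r le_rfl _ _ (fun q => M q.1 q.2) _ (fun q => by
      have : (A l).map (algebraMap Qbar ℂ) * (evN X.N (s : ℂ) (b.x l (s : ℂ))).adjugate * M =
          (evN X.N (s : ℂ) (b.x l (s : ℂ))).det • M := by
        rw [hAl, Matrix.mul_adjugate, Matrix.smul_mul, Matrix.one_mul]
      rw [this]
      rfl)] at h2
    rcases mul_eq_zero.1 h2 with h5 | h5
    · exfalso
      refine pow_ne_zero _ ?_ h5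
      exact (X.det _ hs _ (Cover.eval₂_root b b.mem l)).ne_zero
    · exact h5
  · intro l' _ hl'
    have h3 : Polynomial.aeval (b.x l (s : ℂ)) (Lagrange.basis Finset.univ y l') = 0 := by
      rw [hy l]
      have := Polynomial.aeval_algebraMap_apply ℂ (y l) (Lagrange.basis Finset.univ y l')
      have h4 : (Lagrange.basis Finset.univ y l').eval (y l) = 0 :=
        Lagrange.eval_basis_of_ne hl' (Finset.mem_univ l)
      rw [Polynomial.coe_aeval_eq_eval, h4, map_zero] at this
      exact this
    rw [h3, zero_mul]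
  · intro h; exact absurd (Finset.mem_univ _) h

theorem not_hasRelation_of_stable {δ : ℕ} (hst : X.Stable δ) {s : Qbar} (hs : (s : ℂ) ∈ f.S)
    (b : f.Branch (s : ℂ)) (k : Fin f.deg) (g : GL ι ℚ) (κ : IntermediateField ℚ Qbar) :
    ¬ HasRelation b.U (X.P b k g) (s : ℂ) κ δ := by
  intro h
  have h1 := hasRelation_mul_right h g⁻¹
  have h2 : HasRelation b.U (fun t => evN X.N t (b.x k t) * X.P₀) (s : ℂ) κ δ := by
    refine hasRelation_congr b.mem (fun t _ => ?_) h1
    have := toC_mul_inv g
    unfold toC at this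
    unfold P toC
    rw [Matrix.mul_assoc, this, Matrix.mul_one]
  obtain ⟨r, hr, hZ, hB⟩ := h2
  apply hB
  have hdet : ∀ l, IsUnit (evN X.N (s : ℂ) (b.x l (s : ℂ)) * X.P₀).det := by
    intro l
    rw [Matrix.det_mul]
    exact (X.det _ hs _ (Cover.eval₂_root b b.mem l)).mul X.det₀
  have h3 := hZ _ (P_mem_ZClosure (hdet k))
  intro M hM
  exact X.evK_eq_zero_of_sheets hs b k (fun l => X.evK_sheets hst b k l hr h3) hM

end FiniteFamily

end Pool.Agent.Helper64.Per2
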