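import Pool.Agent.Helper64.Per2.Lin
import Pool.Agent.Helper64.Per2.Defs
import Pool.Agent.Helper64.Per.Crit

/-!
# Period relations: points of the closure of the graph from specialisations
-/

open Polynomial

namespace Pool.Agent.Helper64.Per2

open Pool.Agent.Helper64.Per

section

variable {σ ι : Type} [Fintype ι] [DecidableEq ι]

/-- The point with coordinates `t`, `x_j`. -/
def pt {R : Type} (t : R) (x : σ → R) : Option σ → R := fun o => o.elim t x

/-- Polynomials in `t` as polynomials in all coordinates. -/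
noncomputable def inT (σ : Type) : Polynomial Qbar →+* MvPolynomial (Option σ) ℂ :=
  (Polynomial.aeval (MvPolynomial.X none : MvPolynomial (Option σ) ℂ)).toRingHom.comp
    (Polynomial.mapRingHom (algebraMap Qbar ℂ))

theorem eval_inT (p : Polynomial Qbar) (t : ℂ) (x : σ → ℂ) :
    MvPolynomial.eval (pt t x) (inT σ p) = ev t p := by
  have h : ((MvPolynomial.eval (pt t x)).comp (inT σ)) = ev t := by
    refine Polynomial.ringHom_ext (fun a => ?_) ?_
    · rw [ev_C]
      simp [inT]
    · rw [ev_X]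
      simp [inT, pt]
  exact RingHom.congr_fun h p

omit [Fintype ι] [DecidableEq ι] in
theorem evM_eval (q : MvPolynomial (ι × ι) (Polynomial Qbar)) (t : ℂ) (x : σ → ℂ)
    (𝓜 : Matrix ι ι (MvPolynomial (Option σ) ℂ)) :
    evM q t (𝓜.map (MvPolynomial.eval (pt t x))) =
      MvPolynomial.eval (pt t x) (MvPolynomial.eval₂ (inT σ) (fun p => 𝓜 p.1 p.2) q) := by
  have h : ((MvPolynomial.eval (pt t x)).comp (inT σ)) = ev t :=
    RingHom.ext (fun p => eval_inT p t x)
  rw [MvPolynomial.eval₂_comp_left (MvPolynomial.eval (pt t x)), h]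
  rfl

/-- Points of `B_{P,s}` from specialisations. -/
theorem mem_BFibre_of_special {U : Set ℂ} (hU : IsOpen U) {x : ℂ → σ → ℂ}
    (hx : ∀ j, ContinuousOn (fun t => x t j) U)
    (halg : ∀ t : Qbar, (t : ℂ) ∈ U → ∃ w : σ → Qbar, ∀ j, x t j = (w j : ℂ))
    {s : Qbar} {y : σ → Qbar}
    (hy : ∀ h : MvPolynomial (Option σ) Qbar, (∀ t ∈ U, MvPolynomial.aeval (pt t (x t)) h = 0) →
      MvPolynomial.aeval (pt s y) h = 0)
    (𝓜 : Matrix ι ι (MvPolynomial (Option σ) ℂ))
    (hdet : IsUnit (𝓜.map (MvPolynomial.eval (pt (s : ℂ) fun j => (y j : ℂ)))).det)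
    {P : ℂ → Matrix ι ι ℂ} (hP : ∀ t ∈ U, P t = 𝓜.map (MvPolynomial.eval (pt t (x t)))) :
    𝓜.map (MvPolynomial.eval (pt (s : ℂ) fun j => (y j : ℂ))) ∈ BFibre U P (s : ℂ) := by
  refine ⟨hdet, fun q hq => ?_⟩
  rw [evM_eval]
  have hpt : pt (s : ℂ) (fun j => (y j : ℂ)) = fun i => ((pt s y i : Qbar) : ℂ) := by
    funext o
    cases o <;> rfl
  rw [hpt]
  refine descent hU (z := fun t => pt t (x t)) (fun o => ?_) (fun t ht => ?_) (pt s y) hy _
    (fun t ht => ?_)
  · cases o with
    | none => exact continuousOn_id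
    | some j => exact hx j
  · obtain ⟨w, hw⟩ := halg t ht
    refine ⟨pt t w, fun o => ?_⟩
    cases o with
    | none => rfl
    | some j => exact hw j
  · rw [← evM_eval, ← hP t ht]
    exact hq t ht

omit [Fintype ι] [DecidableEq ι] in
/-- Relations over `ℂ` between matrices specialise. -/
theorem matrix_special {U : Set ℂ} (hU : IsOpen U) {x : ℂ → σ → ℂ}
    (hx : ∀ j, ContinuousOn (fun t => x t j) U)
    (halg : ∀ t : Qbar, (t : ℂ) ∈ U → ∃ w : σ → Qbar, ∀ j, x t j = (w j : ℂ))
    {s : Qbar} {y : σ → Qbar}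
    (hy : ∀ h : MvPolynomial (Option σ) Qbar, (∀ t ∈ U, MvPolynomial.aeval (pt t (x t)) h = 0) →
      MvPolynomial.aeval (pt s y) h = 0)
    (𝓜 : Matrix ι ι (MvPolynomial (Option σ) ℂ))
    (h0 : ∀ t ∈ U, 𝓜.map (MvPolynomial.eval (pt t (x t))) = 0) :
    𝓜.map (MvPolynomial.eval (pt (s : ℂ) fun j => (y j : ℂ))) = 0 := by
  have hpt : pt (s : ℂ) (fun j => (y j : ℂ)) = fun i => ((pt s y i : Qbar) : ℂ) := by
    funext o
    cases o <;> rfl
  ext i k
  rw [hpt]
  refine descent hU (z := fun t => pt t (x t)) (fun o => ?_) (fun t ht => ?_) (pt s y) hy _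
    (fun t ht => ?_)
  · cases o with
    | none => exact continuousOn_id
    | some j => exact hx j
  · obtain ⟨w, hw⟩ := halg t ht
    refine ⟨pt t w, fun o => ?_⟩
    cases o with
    | none => rfl
    | some j => exact hw j
  · exact congrFun (congrFun (h0 t ht) i) k

end

/-- Polynomials over `ℚ̄` in `t` and `x` as polynomials in `x` with coefficients in `ℚ̄[t]`. -/
noncomputable def toPoly (n : ℕ) :
    MvPolynomial (Option (Fin n)) Qbar →ₐ[Qbar] MvPolynomial (Fin n) (Polynomial Qbar) :=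
  MvPolynomial.aeval (pt (MvPolynomial.C X) MvPolynomial.X)

theorem eval₂_toPoly {n : ℕ} (h : MvPolynomial (Option (Fin n)) Qbar) (t : ℂ) (x : Fin n → ℂ) :
    MvPolynomial.eval₂ (ev t) x (toPoly n h) = MvPolynomial.aeval (pt t x) h := by
  have h1 : (MvPolynomial.eval₂Hom (ev t) x).comp (toPoly n).toRingHom =
      (MvPolynomial.aeval (pt t x)).toRingHom := by
    refine MvPolynomial.ringHom_ext (fun a => ?_) (fun o => ?_)
    · simp only [toPoly, RingHom.comp_apply, AlgHom.toRingHom_eq_coe, RingHom.coe_coe,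
        MvPolynomial.algHom_C, MvPolynomial.coe_eval₂Hom]
      rw [MvPolynomial.algebraMap_apply, MvPolynomial.eval₂_C]
      exact ev_C t a
    · cases o with
      | none => simp [toPoly, pt, ev_X]
      | some j => simp [toPoly, pt]
  exact RingHom.congr_fun h1 h

theorem eval₂_toPoly' {n : ℕ} (h : MvPolynomial (Option (Fin n)) Qbar) (s : Qbar)
    (y : Fin n → Qbar) :
    MvPolynomial.eval₂ (evalRingHom s) y (toPoly n h) = MvPolynomial.aeval (pt s y) h := by
  have h1 : (MvPolynomial.eval₂Hom (evalRingHom s) y).comp (toPoly n).toRingHom =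
      (MvPolynomial.aeval (pt s y)).toRingHom := by
    refine MvPolynomial.ringHom_ext (fun a => ?_) (fun o => ?_)
    · simp only [toPoly, RingHom.comp_apply, AlgHom.toRingHom_eq_coe, RingHom.coe_coe,
        MvPolynomial.algHom_C, MvPolynomial.coe_eval₂Hom]
      rw [MvPolynomial.algebraMap_apply, MvPolynomial.eval₂_C]
      simp
    · cases o with
      | none => simp [toPoly, pt]
      | some j => simp [toPoly, pt]
  exact RingHom.congr_fun h1 h

/-- Specialisation of all the branches, with given value of one of them. -/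
theorem exists_special {f : Cover} {s₀ : ℂ} (b : f.Branch s₀) {G : Polynomial (Polynomial Qbar)}
    (hG : Irreducible G) (hGm : G.Monic) (k : Fin f.deg)
    (hGx : ∀ t ∈ b.U, eval₂ (ev t) (b.x k t) G = 0) {s c : Qbar}
    (hc : eval₂ (evalRingHom s) c G = 0) :
    ∃ y : Fin f.deg → Qbar, y k = c ∧ (∀ j, eval₂ (evalRingHom s) (y j) f.F = 0) ∧
      ((s : ℂ) ∈ f.S → Function.Injective y) ∧
      ∀ h : MvPolynomial (Option (Fin f.deg)) Qbar,
        (∀ t ∈ b.U, MvPolynomial.aeval (pt t fun j => b.x j t) h = 0) →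
          MvPolynomial.aeval (pt s y) h = 0 := by
  obtain ⟨t, htU, ht⟩ := exists_transcendental b.isOpen ⟨_, b.mem⟩
  obtain ⟨y, hyk, hy⟩ := exists_specialization f.monic (ev_injective ht) (fun j => b.x j t)
    (fun j => Cover.eval₂_root b htU j) k hG hGm (hGx t htU) s c hc
  have hprod := specialization_prod (fun k => b.x k t) (Cover.map_eq_prod b htU) s y hy
  refine ⟨y, hyk, fun j => ?_, fun hs => ?_, fun h hh => ?_⟩
  · rw [← eval_map, hprod, eval_prod]
    exact Finset.prod_eq_zero (Finset.mem_univ j) (by simp)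
  · have hsep : (f.F.map (evalRingHom s)).Separable := by
      have h1 := f.etale (s : ℂ) hs
      rw [ev_coe, ← Polynomial.map_map] at h1
      exact (separable_map _).1 h1
    rw [hprod, separable_prod_X_sub_C_iff] at hsep
    exact hsep
  · rw [← eval₂_toPoly']
    refine hy _ ?_
    rw [eval₂_toPoly]
    exact hh t htU

theorem branch_cont {f : Cover} {s₀ : ℂ} (b : f.Branch s₀) (j : Fin f.deg) :
    ContinuousOn (fun t => b.x j t) b.U :=
  (b.an j).continuousOn

theorem branch_alg {f : Cover} {s₀ : ℂ} (b : f.Branch s₀) (t : Qbar) (ht : (t : ℂ) ∈ b.U) :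
    ∃ w : Fin f.deg → Qbar, ∀ j, b.x j t = (w j : ℂ) := by
  have h : ∀ j, ∃ w : Qbar, (w : ℂ) = b.x j t := fun j =>
    f.entry_algebraic (Cover.eval₂_root b ht j)
  choose w hw using h
  exact ⟨w, fun j => (hw j).symm⟩

end Pool.Agent.Helper64.Per2
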