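import Pool.Agent.Helper64.Per.Exist

/-!
# Period relations: linear substitutions
-/

open Matrix

namespace Pool.Agent.Helper64.Per2

open Pool.Agent.Helper64.Per

section

variable {σ τ : Type} {R : Type} [CommRing R]

theorem totalDegree_aeval_le {f : σ → MvPolynomial τ R} (hf : ∀ i, (f i).totalDegree ≤ 1)
    (q : MvPolynomial σ R) : (MvPolynomial.aeval f q).totalDegree ≤ q.totalDegree := by
  rw [MvPolynomial.aeval_def, MvPolynomial.eval₂_eq]
  refine (MvPolynomial.totalDegree_finsetSum _ _).trans (Finset.sup_le (fun d hd => ?_))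
  refine (MvPolynomial.totalDegree_mul _ _).trans ?_
  have h1 : (algebraMap R (MvPolynomial τ R) (MvPolynomial.coeff d q)).totalDegree = 0 :=
    MvPolynomial.totalDegree_C _
  rw [h1, zero_add]
  refine (MvPolynomial.totalDegree_finsetProd _ _).trans ?_
  refine le_trans ?_ (MvPolynomial.le_totalDegree hd)
  refine Finset.sum_le_sum (fun i _ => ?_)
  refine (MvPolynomial.totalDegree_pow _ _).trans ?_
  calc d i * (f i).totalDegree ≤ d i * 1 := Nat.mul_le_mul_left _ (hf i)
    _ = d i := mul_one _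

/-- Homogenised evaluation: `l ^ d * q (x / l)`. -/
noncomputable def hev {k : Type} [CommRing k] (q : MvPolynomial σ k) (d : ℕ) (φ : k →+* R)
    (x : σ → R) (l : R) : R :=
  ∑ m ∈ q.support, φ (q.coeff m) * l ^ (d - m.sum fun _ e => e) * ∏ i ∈ m.support, x i ^ m i

theorem hev_eq {k : Type} [CommRing k] (q : MvPolynomial σ k) {d : ℕ} (hd : q.totalDegree ≤ d)
    (φ : k →+* R) (x y : σ → R) (l : R) (hxy : ∀ i, x i = l * y i) :
    hev q d φ x l = l ^ d * MvPolynomial.eval₂ φ y q := by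
  rw [hev, MvPolynomial.eval₂_eq, Finset.mul_sum]
  refine Finset.sum_congr rfl (fun m hm => ?_)
  have h1 : ∏ i ∈ m.support, x i ^ m i = l ^ (m.sum fun _ e => e) *
      ∏ i ∈ m.support, y i ^ m i := by
    rw [Finsupp.sum, ← Finset.prod_pow_eq_pow_sum, ← Finset.prod_mul_distrib]
    refine Finset.prod_congr rfl (fun i _ => ?_)
    rw [hxy, mul_pow]
  have h2 : (m.sum fun _ e => e) ≤ d := (MvPolynomial.le_totalDegree hm).trans hd
  rw [h1]
  calc φ (MvPolynomial.coeff m q) * l ^ (d - m.sum fun _ e => e) *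
        (l ^ (m.sum fun _ e => e) * ∏ i ∈ m.support, y i ^ m i)
      = (l ^ (d - m.sum fun _ e => e) * l ^ (m.sum fun _ e => e)) *
        (φ (MvPolynomial.coeff m q) * ∏ i ∈ m.support, y i ^ m i) := by ring
    _ = _ := by rw [← pow_add, Nat.sub_add_cancel h2]

theorem hev_map {k : Type} [CommRing k] {S : Type} [CommRing S] (q : MvPolynomial σ k) (d : ℕ)
    (φ : k →+* R) (x : σ → R) (l : R) (ψ : R →+* S) :
    ψ (hev q d φ x l) = hev q d (ψ.comp φ) (fun i => ψ (x i)) (ψ l) := by
  simp only [hev, map_sum, map_mul, map_pow, map_prod, RingHom.comp_apply]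

end

section

variable {ι : Type} [Fintype ι] [DecidableEq ι]

/-- The matrix of the variables. -/
noncomputable def gen (R : Type) [CommRing R] : Matrix ι ι (MvPolynomial (ι × ι) R) :=
  Matrix.of fun i j => MvPolynomial.X (i, j)

/-- Substitution of `A M B` for `M`. -/
noncomputable def sub {R : Type} [CommRing R] (A B : Matrix ι ι R) :
    MvPolynomial (ι × ι) R →ₐ[R] MvPolynomial (ι × ι) R :=
  MvPolynomial.aeval fun p => (A.map MvPolynomial.C * gen R * B.map MvPolynomial.C :
    Matrix ι ι (MvPolynomial (ι × ι) R)) p.1 p.2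

omit [DecidableEq ι] in
theorem sub_eval₂ {R S : Type} [CommRing R] [CommRing S] (A B : Matrix ι ι R) (φ : R →+* S)
    (M : Matrix ι ι S) (q : MvPolynomial (ι × ι) R) :
    MvPolynomial.eval₂ φ (fun p => M p.1 p.2) (sub A B q) =
      MvPolynomial.eval₂ φ (fun p => (A.map φ * M * B.map φ) p.1 p.2) q := by
  let ψ : MvPolynomial (ι × ι) R →+* S := MvPolynomial.eval₂Hom φ (fun p => M p.1 p.2)
  have h1 : ψ.comp (sub A B).toRingHom =
      MvPolynomial.eval₂Hom φ (fun p => (A.map φ * M * B.map φ) p.1 p.2) := by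
    refine MvPolynomial.ringHom_ext (fun a => ?_) (fun p => ?_)
    · simp [ψ, sub]
    · have h2 : ((A.map MvPolynomial.C * gen R * B.map MvPolynomial.C :
          Matrix ι ι (MvPolynomial (ι × ι) R)).map ψ) = A.map φ * M * B.map φ := by
        rw [Matrix.map_mul, Matrix.map_mul]
        congr 1
        · congr 1
          · ext i j; simp [ψ]
          · ext i j; simp [ψ, gen]
        · ext i j; simp [ψ]
      simp only [RingHom.comp_apply, AlgHom.toRingHom_eq_coe, RingHom.coe_coe, sub,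
        MvPolynomial.aeval_X, MvPolynomial.coe_eval₂Hom, MvPolynomial.eval₂_X]
      rw [← h2]
      rfl
  exact RingHom.congr_fun h1 q

omit [DecidableEq ι] in
theorem totalDegree_sub_le {R : Type} [CommRing R] (A B : Matrix ι ι R)
    (q : MvPolynomial (ι × ι) R) : (sub A B q).totalDegree ≤ q.totalDegree := by
  refine totalDegree_aeval_le (fun p => ?_) q
  rw [Matrix.mul_apply]
  refine MvPolynomial.totalDegree_finsetSum_le (fun j _ => ?_)
  refine (MvPolynomial.totalDegree_mul _ _).trans ?_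
  have h1 : ((B.map MvPolynomial.C) j p.2 : MvPolynomial (ι × ι) R).totalDegree = 0 :=
    MvPolynomial.totalDegree_C _
  rw [h1, add_zero, Matrix.mul_apply]
  refine MvPolynomial.totalDegree_finsetSum_le (fun i _ => ?_)
  refine (MvPolynomial.totalDegree_mul _ _).trans ?_
  have h2 : ((A.map MvPolynomial.C) p.1 i : MvPolynomial (ι × ι) R).totalDegree = 0 :=
    MvPolynomial.totalDegree_C _
  rw [h2, zero_add]
  rcases subsingleton_or_nontrivial R with hR | hR
  · have : (gen R i j : MvPolynomial (ι × ι) R) = 0 := Subsingleton.elim _ _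
    rw [this, MvPolynomial.totalDegree_zero]
    exact Nat.zero_le _
  · exact (MvPolynomial.totalDegree_X (R := R) (i, j)).le

/-- Evaluation at `(t, M)`. -/
noncomputable def evR (t : ℂ) (M : Matrix ι ι ℂ) :
    MvPolynomial (ι × ι) (Polynomial Qbar) →+* ℂ :=
  MvPolynomial.eval₂Hom (ev t) (fun p => M p.1 p.2)

omit [Fintype ι] [DecidableEq ι] in
theorem evM_eq (q : MvPolynomial (ι × ι) (Polynomial Qbar)) (t : ℂ) (M : Matrix ι ι ℂ) :
    evM q t M = evR t M q := rfl

omit [Fintype ι] [DecidableEq ι] in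
theorem evR_C (t : ℂ) (M : Matrix ι ι ℂ) (p : Polynomial Qbar) :
    evR t M (MvPolynomial.C p) = ev t p := by
  simp [evR]

omit [Fintype ι] [DecidableEq ι] in
theorem evR_gen (t : ℂ) (M : Matrix ι ι ℂ) :
    (gen (Polynomial Qbar) : Matrix ι ι (MvPolynomial (ι × ι) (Polynomial Qbar))).map (evR t M) =
      M := by
  ext i j
  simp [gen, evR]

/-- Invariance of relations under a change of the local basis. -/
theorem hasRelation_mul_right {U : Set ℂ} {P : ℂ → Matrix ι ι ℂ} {s : ℂ}
    {κ : IntermediateField ℚ Qbar} {δ : ℕ} (h : HasRelation U P s κ δ) (g : GL ι ℚ) :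
    HasRelation U (fun t => P t * (g : Matrix ι ι ℚ).map (algebraMap ℚ ℂ)) s κ δ := by
  obtain ⟨r, hr, hZ, hB⟩ := h
  let g' : Matrix ι ι ℚ := ((g⁻¹ : GL ι ℚ) : Matrix ι ι ℚ)
  have hgg : (g : Matrix ι ι ℚ) * g' = 1 := by
    rw [← Units.val_mul, mul_inv_cancel, Units.val_one]
  have hg'g : g' * (g : Matrix ι ι ℚ) = 1 := by
    rw [← Units.val_mul, inv_mul_cancel, Units.val_one]
  have hC : ∀ (A B : Matrix ι ι ℚ), A * B = 1 →
      A.map (algebraMap ℚ ℂ) * B.map (algebraMap ℚ ℂ) = 1 := by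
    intro A B hAB
    rw [← Matrix.map_mul, hAB]
    exact Matrix.map_one _ (map_zero _) (map_one _)
  have hg1 := hC _ _ hgg
  have hg2 := hC _ _ hg'g
  have hmap : ∀ {k : Type} [CommRing k] [Algebra ℚ k] (φ : k →+* ℂ) (A : Matrix ι ι ℚ),
      (A.map (algebraMap ℚ k)).map φ = A.map (algebraMap ℚ ℂ) := by
    intro k _ _ φ A
    ext i j
    exact RingHom.congr_fun (Subsingleton.elim (φ.comp (algebraMap ℚ k)) (algebraMap ℚ ℂ)) (A i j)
  -- evaluation of the substituted polynomials
  have hev1 : ∀ (q : MvPolynomial (ι × ι) Qbar) (A : Matrix ι ι ℚ) (M : Matrix ι ι ℂ),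
      MvPolynomial.aeval (fun p => M p.1 p.2) (sub 1 (A.map (algebraMap ℚ Qbar)) q) =
        MvPolynomial.aeval (fun p => (M * A.map (algebraMap ℚ ℂ)) p.1 p.2) q := by
    intro q A M
    rw [MvPolynomial.aeval_def, sub_eval₂, MvPolynomial.aeval_def, hmap,
      Matrix.map_one _ (map_zero _) (map_one _), one_mul]
  have hev2 : ∀ (q : MvPolynomial (ι × ι) κ) (A : Matrix ι ι ℚ) (M : Matrix ι ι ℂ),
      evK κ (sub 1 (A.map (algebraMap ℚ κ)) q) M = evK κ q (M * A.map (algebraMap ℚ ℂ)) := by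
    intro q A M
    unfold evK
    rw [MvPolynomial.aeval_def, sub_eval₂, MvPolynomial.aeval_def, hmap,
      Matrix.map_one _ (map_zero _) (map_one _), one_mul]
  have hev3 : ∀ (q : MvPolynomial (ι × ι) (Polynomial Qbar)) (A : Matrix ι ι ℚ) (t : ℂ)
      (M : Matrix ι ι ℂ),
      evM (sub 1 (A.map (algebraMap ℚ (Polynomial Qbar))) q) t M =
        evM q t (M * A.map (algebraMap ℚ ℂ)) := by
    intro q A t M
    unfold evM
    rw [sub_eval₂, hmap, Matrix.map_one _ (map_zero _) (map_one _), one_mul]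
  have hdet : ∀ (A B : Matrix ι ι ℚ), A * B = 1 → ∀ M : Matrix ι ι ℂ, IsUnit M.det →
      IsUnit (M * A.map (algebraMap ℚ ℂ)).det := by
    intro A B hAB M hM
    rw [Matrix.det_mul]
    refine hM.mul ?_
    have := congrArg Matrix.det (hC _ _ hAB)
    rw [Matrix.det_mul, Matrix.det_one] at this
    exact IsUnit.of_mul_eq_one _ this
  refine ⟨sub 1 (g'.map (algebraMap ℚ κ)) r, (totalDegree_sub_le _ _ _).trans hr, ?_, ?_⟩
  · intro M hM
    rw [hev2]
    refine hZ _ ⟨hdet _ _ hg'g _ hM.1, fun q hq => ?_⟩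
    have h1 := hM.2 (sub 1 (g'.map (algebraMap ℚ Qbar)) q) (by
      rw [hev1, mul_assoc, hg1, mul_one]
      exact hq)
    rwa [hev1] at h1
  · intro hall
    apply hB
    intro M hM
    have h1 := hall (M * (g : Matrix ι ι ℚ).map (algebraMap ℚ ℂ)) ⟨hdet _ _ hgg _ hM.1, ?_⟩
    · rw [hev2, mul_assoc, hg1, mul_one] at h1
      exact h1
    · intro q hq
      have h2 := hM.2 (sub 1 ((g : Matrix ι ι ℚ).map (algebraMap ℚ (Polynomial Qbar))) q)
        (fun t ht => by
          rw [hev3]
          exact hq t ht)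
      rwa [hev3] at h2

end

end Pool.Agent.Helper64.Per2
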