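import Pool.Agent.Helper64.Per2.Main

/-!
# Period relations: the Weil restrictions along `u ^ 2 = t`
-/

open Polynomial Matrix

namespace Pool.Agent.Helper64.Per2

open Pool.Agent.Helper64.Per

theorem sqrt_irreducible : Irreducible (X ^ 2 - C X : Polynomial (Polynomial Qbar)) := by
  have hmon : (X ^ 2 - C X : Polynomial (Polynomial Qbar)).Monic :=
    monic_X_pow_sub_C _ two_ne_zero
  have hdeg : (X ^ 2 - C X : Polynomial (Polynomial Qbar)).natDegree = 2 := natDegree_X_pow_sub_C
  rcases split_or 2 _ hmon hdeg with ⟨a, ha⟩ | ⟨G, hG, hGm, hGd, hGF⟩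
  · exfalso
    have h1 := congrArg (fun p => p.eval (a 0)) ha
    rw [Fin.prod_univ_two, eval_mul, eval_sub, eval_sub, eval_sub, eval_pow, eval_X, eval_C,
      eval_C, sub_self, zero_mul] at h1
    have h2 : a 0 ^ 2 = X := sub_eq_zero.1 h1
    have h3 := congrArg natDegree h2
    rw [natDegree_pow, natDegree_X] at h3
    omega
  · have h1 : (X ^ 2 - C X : Polynomial (Polynomial Qbar)) = G := by
      refine eq_of_monic_of_dvd_of_natDegree_le hGm hmon hGF ?_
      rw [hdeg]; exact hGd
    rw [h1]; exact hG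

/-- The cover `u ^ 2 = t` of the punctured affine line. -/
noncomputable def sqrtCover : Cover where
  K := ⊥
  finK := inferInstance
  F := X ^ 2 - C X
  D := X
  F_mem := fun i j => by
    rw [coeff_sub, coeff_X_pow, coeff_C]
    split_ifs <;> simp [coeff_one, coeff_X] <;> split_ifs <;> simp [zero_mem, one_mem]
  D_mem := fun j => by
    rw [coeff_X]
    split_ifs <;> simp [zero_mem, one_mem]
  monic := monic_X_pow_sub_C _ two_ne_zero
  D_ne := X_ne_zero
  etale := fun t ht => by
    rw [ev_X] at ht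
    have h1 : (X ^ 2 - C X : Polynomial (Polynomial Qbar)).map (ev t) = X ^ 2 - C t := by
      simp [ev_X]
    rw [h1]
    exact separable_X_pow_sub_C t (by norm_num) ht

theorem sqrtCover_deg : sqrtCover.deg = 2 := natDegree_X_pow_sub_C

theorem sqrtCover_eval (t u : ℂ) : eval₂ (ev t) u sqrtCover.F = u ^ 2 - t := by
  change eval₂ (ev t) u (X ^ 2 - C X) = _
  rw [eval₂_sub, eval₂_pow, eval₂_X, eval₂_C, ev_X]

variable {ι : Type} [Fintype ι] [DecidableEq ι]

/-- The permutation of the two copies. -/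
def swap (ι : Type) [Fintype ι] [DecidableEq ι] : GL (ι ⊕ ι) ℚ :=
  ⟨fromBlocks 0 1 1 0, fromBlocks 0 1 1 0, by simp [fromBlocks_multiply],
    by simp [fromBlocks_multiply]⟩

theorem toC_swap : toC (swap ι) = fromBlocks 0 1 1 0 := by
  unfold toC swap
  rw [Units.val_mk, fromBlocks_map]
  simp

/-- The matrix of the basis `e_a`, `u e_a` on the two sheets. -/
noncomputable def twoN (ι : Type) [Fintype ι] [DecidableEq ι] :
    Matrix (ι ⊕ ι) (ι ⊕ ι) (Polynomial (Polynomial Qbar)) :=
  fromBlocks 1 1 (Matrix.scalar ι X) (-Matrix.scalar ι X)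

theorem evN_twoN (t u : ℂ) : evN (twoN ι) t u = fromBlocks 1 1 (u • (1 : Matrix ι ι ℂ))
    (-(u • (1 : Matrix ι ι ℂ))) := by
  unfold evN twoN
  rw [fromBlocks_map]
  congr 1
  · ext i j
    by_cases h : i = j
    · subst h; simp
    · simp [h]
  · ext i j
    by_cases h : i = j
    · subst h; simp
    · simp [h]
  · ext i j
    by_cases h : i = j
    · subst h; simp
    · simp [h]
  · ext i j
    by_cases h : i = j
    · subst h; simp [eval₂_neg]
    · simp [h]

theorem evN_twoN_mul (t u : ℂ) (P₀ : Matrix ι ι ℂ) :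
    evN (twoN ι) t u * fromBlocks P₀ 0 0 P₀ = fromBlocks P₀ P₀ (u • P₀) (-(u • P₀)) := by
  rw [evN_twoN, fromBlocks_multiply]
  simp

/-- The Weil restriction of a constant family with period matrix `P₀` along `u ^ 2 = t`: the
period matrix is `(P₀, P₀; u P₀, -u P₀)`. -/
noncomputable def twoFamily (P₀ : Matrix ι ι ℂ) (hP₀ : IsUnit P₀.det) :
    FiniteFamily sqrtCover (ι ⊕ ι) where
  N := twoN ι
  P₀ := fromBlocks P₀ 0 0 P₀
  det₀ := by
    rw [det_fromBlocks_zero₂₁]
    exact hP₀.mul hP₀
  det := fun t ht u hu => by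
    have hu0 : u ≠ 0 := by
      rintro rfl
      rw [sqrtCover_eval] at hu
      apply ht
      change ev t X = 0
      rw [ev_X]
      linear_combination -hu
    rw [evN_twoN, det_fromBlocks_one₁₁]
    have h3 : (-(u • (1 : Matrix ι ι ℂ)) - u • (1 : Matrix ι ι ℂ) * 1) =
        (-(2 * u)) • (1 : Matrix ι ι ℂ) := by
      rw [Matrix.mul_one, neg_smul, two_mul, add_smul]
      abel
    rw [h3, Matrix.det_smul, Matrix.det_one, mul_one]
    exact (isUnit_iff_ne_zero.2 (neg_ne_zero.2 (mul_ne_zero two_ne_zero hu0))).pow _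
  flat := fun s b k l => by
    by_cases hkl : k = l
    · subst hkl
      refine ⟨1, fun t _ => ?_⟩
      have : toC (1 : GL (ι ⊕ ι) ℚ) = 1 := by
        unfold toC
        rw [Units.val_one]
        exact Matrix.map_one _ (map_zero _) (map_one _)
      rw [this, Matrix.mul_one]
    · refine ⟨swap ι, fun t ht => ?_⟩
      have h1 : b.x k t ^ 2 = t := by
        have := Cover.eval₂_root b ht k
        rw [sqrtCover_eval] at this
        exact sub_eq_zero.1 this
      have h2 : b.x l t ^ 2 = t := by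
        have := Cover.eval₂_root b ht l
        rw [sqrtCover_eval] at this
        exact sub_eq_zero.1 this
      have h3 : b.x l t = -b.x k t := by
        have h4 : (b.x l t - b.x k t) * (b.x l t + b.x k t) = 0 := by
          linear_combination h2 - h1
        rcases mul_eq_zero.1 h4 with h5 | h5
        · exact absurd (b.inj t ht (sub_eq_zero.1 h5).symm) hkl
        · exact eq_neg_of_add_eq_zero_left h5
      rw [evN_twoN_mul, evN_twoN_mul, toC_swap, fromBlocks_multiply, h3]
      simp

theorem swap_mem_mono (P₀ : Matrix ι ι ℂ) (hP₀ : IsUnit P₀.det) :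
    swap ι ∈ (twoFamily P₀ hP₀).Mono := by
  have h1 : (1 : ℂ) ∈ sqrtCover.S := by
    change ev 1 X ≠ 0
    rw [ev_X]
    exact one_ne_zero
  obtain ⟨b⟩ := sqrtCover.exists_branch h1
  have hd := sqrtCover_deg
  let k : Fin sqrtCover.deg := ⟨0, by omega⟩
  let l : Fin sqrtCover.deg := ⟨1, by omega⟩
  have hkl : k ≠ l := by
    intro h
    have := congrArg Fin.val h
    simp [k, l] at this
  refine ⟨1, b, k, l, fun t ht => ?_⟩
  have h1 : b.x k t ^ 2 = t := by
    have := Cover.eval₂_root b ht k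
    rw [sqrtCover_eval] at this
    exact sub_eq_zero.1 this
  have h2 : b.x l t ^ 2 = t := by
    have := Cover.eval₂_root b ht l
    rw [sqrtCover_eval] at this
    exact sub_eq_zero.1 this
  have h3 : b.x l t = -b.x k t := by
    have h4 : (b.x l t - b.x k t) * (b.x l t + b.x k t) = 0 := by
      linear_combination h2 - h1
    rcases mul_eq_zero.1 h4 with h5 | h5
    · exact absurd (b.inj t ht (sub_eq_zero.1 h5).symm) hkl
    · exact eq_neg_of_add_eq_zero_left h5
  change evN (twoN ι) t (b.x l t) * fromBlocks P₀ 0 0 P₀ =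
    evN (twoN ι) t (b.x k t) * fromBlocks P₀ 0 0 P₀ * toC (swap ι)
  rw [evN_twoN_mul, evN_twoN_mul, toC_swap, fromBlocks_multiply, h3]
  simp

theorem twoFamily_not_stable [Nonempty ι] (P₀ : Matrix ι ι ℂ) (hP₀ : IsUnit P₀.det) {δ : ℕ}
    (hδ : 1 ≤ δ) : ¬ (twoFamily P₀ hP₀).Stable δ := by
  have hmap : (fromBlocks 1 0 0 0 : Matrix (ι ⊕ ι) (ι ⊕ ι) Qbar).map (algebraMap Qbar ℂ) =
      fromBlocks 1 0 0 0 := by
    rw [fromBlocks_map, Matrix.map_one _ (map_zero _) (map_one _),
      Matrix.map_zero _ (map_zero _)]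
  refine (twoFamily P₀ hP₀).not_stable_of_endomorphism (α := fromBlocks 1 0 0 0)
    (β := fromBlocks 1 0 0 0) ?_ (swap_mem_mono P₀ hP₀) ?_ hδ
  · rw [hmap]
    change fromBlocks 1 0 0 0 * fromBlocks P₀ 0 0 P₀ = fromBlocks P₀ 0 0 P₀ * fromBlocks 1 0 0 0
    rw [fromBlocks_multiply, fromBlocks_multiply]
    simp
  · rw [hmap, toC_swap, fromBlocks_multiply, fromBlocks_multiply]
    intro h
    obtain ⟨i⟩ := ‹Nonempty ι›
    have h1 := congrFun (congrFun h (Sum.inr i)) (Sum.inl i)
    simp at h1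

end Pool.Agent.Helper64.Per2
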