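import Pool.Agent.Helper64.Per2.Spec
import Pool.Agent.Helper64.Per2.Sub

/-!
# Period relations: Weil restrictions of constant families
-/

open Polynomial Matrix

namespace Pool.Agent.Helper64.Per2

open Pool.Agent.Helper64.Per

variable {m : ℕ} {f : Cover}

/-- The period matrix with `x_k(t)` replaced by `y_k`. -/
noncomputable def weilOf {n : ℕ} (y : Fin n → ℂ) (P₀ : Matrix (Fin m) (Fin m) ℂ) :
    Matrix (Fin n × Fin m) (Fin n × Fin m) ℂ :=
  Matrix.of fun p q => y q.1 ^ (p.1 : ℕ) * P₀ p.2 q.2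

theorem weilOf_det {n : ℕ} {y : Fin n → ℂ} (hy : Function.Injective y)
    {P₀ : Matrix (Fin m) (Fin m) ℂ} (hP : IsUnit P₀.det) : IsUnit (weilOf y P₀).det := by
  have h : weilOf y P₀ = Matrix.kroneckerMap (· * ·) (Cover.ofRoots y) P₀ := by
    ext p q
    simp [weilOf, Cover.ofRoots, Matrix.kroneckerMap_apply]
  rw [h, Matrix.det_kronecker]
  exact ((Cover.ofRoots_det hy).pow _).mul (hP.pow _)

theorem toC_mul_inv {ι : Type} [Fintype ι] [DecidableEq ι] (g : GL ι ℚ) :
    toC g * toC g⁻¹ = 1 := by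
  unfold toC
  rw [← Matrix.map_mul, ← Units.val_mul, mul_inv_cancel, Units.val_one]
  exact Matrix.map_one _ (map_zero _) (map_one _)

theorem toC_det {ι : Type} [Fintype ι] [DecidableEq ι] (g : GL ι ℚ) : IsUnit (toC g).det := by
  have := congrArg Matrix.det (toC_mul_inv g)
  rw [Matrix.det_mul, Matrix.det_one] at this
  exact IsUnit.of_mul_eq_one _ this

theorem evK_linear {ι : Type} [Fintype ι] [DecidableEq ι] (κ : IntermediateField ℚ Qbar) (c : κ)
    (p q : ι × ι) (M : Matrix ι ι ℂ) :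
    evK κ (MvPolynomial.X p - MvPolynomial.C c * MvPolynomial.X q) M =
      M p.1 p.2 - ((c : Qbar) : ℂ) * M q.1 q.2 := by
  unfold evK
  rw [map_sub, map_mul, MvPolynomial.aeval_X, MvPolynomial.aeval_X, MvPolynomial.aeval_C]
  rfl

/-- The points of `S` at which a factor `G` of the equation has an integral root carry linear
relations. -/
theorem hasRelation_weil {G : Polynomial (Polynomial Qbar)} (hG : Irreducible G) (hGm : G.Monic)
    (hdeg : 2 ≤ G.natDegree) (hGF : G ∣ f.F) {s : Qbar} (hs : (s : ℂ) ∈ f.S) {c : ℤ}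
    (hc : eval₂ (evalRingHom s) (c : Qbar) G = 0) (b : f.Branch (s : ℂ))
    (hm : 1 ≤ m) {P₀ : Matrix (Fin m) (Fin m) ℂ} (hP₀ : IsUnit P₀.det)
    (κ : IntermediateField ℚ Qbar) {δ : ℕ} (hδ : 1 ≤ δ) :
    HasRelation b.U (weil b P₀) (s : ℂ) κ δ := by
  classical
  obtain ⟨H, hH⟩ := hGF
  have hsep : (f.F.map (evalRingHom s)).Separable := by
    have h1 := f.etale (s : ℂ) hs
    rw [ev_coe, ← Polynomial.map_map] at h1
    exact (separable_map _).1 h1
  have hGsep : (G.map (evalRingHom s)).Separable := by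
    refine hsep.of_dvd ?_
    rw [hH, Polynomial.map_mul]
    exact Dvd.intro _ rfl
  -- the root `c` is the value of one of the branches
  have hcG : (G.map (evalRingHom s)).eval (c : Qbar) = 0 := by rw [eval_map]; exact hc
  have hcC : eval₂ (ev (s : ℂ)) (c : ℂ) G = 0 := by
    have h1 := congrArg (algebraMap Qbar ℂ) hc
    rw [Polynomial.hom_eval₂, ← ev_coe, map_zero] at h1
    simpa using h1
  have hcF : (f.F.map (ev (s : ℂ))).eval (c : ℂ) = 0 := by
    rw [eval_map, hH, eval₂_mul, hcC, zero_mul]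
  obtain ⟨k, hk⟩ : ∃ k, b.x k (s : ℂ) = (c : ℂ) := by
    rw [Cover.map_eq_prod b b.mem, eval_prod] at hcF
    obtain ⟨k, _, hk⟩ := Finset.prod_eq_zero_iff.1 hcF
    refine ⟨k, ?_⟩
    rw [eval_sub, eval_X, eval_C] at hk
    exact (sub_eq_zero.1 hk).symm
  -- `G` vanishes along the branch
  have hGx : ∀ t ∈ b.U, eval₂ (ev t) (b.x k t) G = 0 := by
    have h1 := AnalyticOnNhd.eq_zero_or_eq_zero_of_mul_eq_zero
      (analyticOnNhd_eval₂ G (b.an k)) (analyticOnNhd_eval₂ H (b.an k)) (fun t ht => by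
        have := Cover.eval₂_root b ht k
        rwa [hH, eval₂_mul] at this) b.conn
    rcases h1 with h1 | h1
    · exact h1
    · exfalso
      have h2 := h1 _ b.mem
      rw [hk] at h2
      have h3 : (X - C (c : ℂ)) * (X - C (c : ℂ)) ∣ f.F.map (ev (s : ℂ)) := by
        rw [hH, Polynomial.map_mul]
        refine mul_dvd_mul (dvd_iff_isRoot.2 ?_) (dvd_iff_isRoot.2 ?_)
        · rw [IsRoot, eval_map]; exact hcC
        · rw [IsRoot, eval_map]; exact h2
      have h4 := (f.etale (s : ℂ) hs).squarefree _ h3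
      have := natDegree_eq_zero_of_isUnit h4
      rw [natDegree_X_sub_C] at this
      omega
  obtain ⟨c', hc'ne, hc'⟩ := exists_other_root hGsep
    (by rw [hGm.natDegree_map]; exact hdeg) hcG
  rw [eval_map] at hc'
  obtain ⟨y, hyk, _, hyinj, hy⟩ := exists_special b hG hGm k hGx (s := s) hc'
  -- the point of `B_{P,s}`
  have hmem : weilOf (fun j => ((y j : Qbar) : ℂ)) P₀ ∈ BFibre b.U (weil b P₀) (s : ℂ) := by
    let 𝓜 : Matrix (Fin f.deg × Fin m) (Fin f.deg × Fin m)
        (MvPolynomial (Option (Fin f.deg)) ℂ) :=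
      Matrix.of fun p q => MvPolynomial.X (some q.1) ^ (p.1 : ℕ) * MvPolynomial.C (P₀ p.2 q.2)
    have h𝓜 : ∀ (t : ℂ) (x : Fin f.deg → ℂ), 𝓜.map (MvPolynomial.eval (pt t x)) =
        weilOf x P₀ := by
      intro t x
      ext p q
      simp [𝓜, weilOf, pt]
    have h1 := mem_BFibre_of_special b.isOpen (x := fun t j => b.x j t) (branch_cont b)
      (branch_alg b) hy 𝓜 (by
        rw [h𝓜]
        exact weilOf_det (fun i j hij => hyinj hs (Subtype.ext hij)) hP₀)
      (P := weil b P₀) (fun t _ => by rw [h𝓜]; rfl)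
    rw [h𝓜] at h1
    exact h1
  have hFdeg : 2 ≤ f.deg := by
    have : G.natDegree ≤ f.F.natDegree := natDegree_le_of_dvd ⟨H, hH⟩ f.monic.ne_zero
    exact hdeg.trans this
  let i0 : Fin f.deg := ⟨0, by omega⟩
  let i1 : Fin f.deg := ⟨1, hFdeg⟩
  -- a nonzero entry of `P₀`
  obtain ⟨a, a', haa⟩ : ∃ a a', P₀ a a' ≠ 0 := by
    by_contra hno
    push Not at hno
    have h0 : P₀ = 0 := by
      ext a a'
      exact hno a a'
    have : Nonempty (Fin m) := ⟨⟨0, by omega⟩⟩
    rw [h0, Matrix.det_zero] at hP₀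
    exact not_isUnit_zero hP₀
  refine ⟨MvPolynomial.X ((i1, a), (k, a')) - MvPolynomial.C (c : κ) *
    MvPolynomial.X ((i0, a), (k, a')), ?_, ?_, ?_⟩
  · refine (MvPolynomial.totalDegree_sub _ _).trans ?_
    rw [MvPolynomial.totalDegree_X]
    refine (max_le le_rfl ?_).trans hδ
    refine (MvPolynomial.totalDegree_mul _ _).trans ?_
    rw [MvPolynomial.totalDegree_C, MvPolynomial.totalDegree_X]
  · intro M hM
    rw [evK_linear]
    have h1 := hM.2 (MvPolynomial.X ((i1, a), (k, a')) - MvPolynomial.C (c : Qbar) *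
      MvPolynomial.X ((i0, a), (k, a'))) (by
      rw [map_sub, map_mul, MvPolynomial.aeval_X, MvPolynomial.aeval_X, MvPolynomial.aeval_C]
      simp [weil, i1, i0, hk])
    rw [map_sub, map_mul, MvPolynomial.aeval_X, MvPolynomial.aeval_X, MvPolynomial.aeval_C] at h1
    simpa using h1
  · intro hall
    have h1 := hall _ hmem
    rw [evK_linear] at h1
    have h2 : (((y k : Qbar) : ℂ) - ((c : Qbar) : ℂ)) * P₀ a a' = 0 := by
      have h3 : weilOf (fun j => ((y j : Qbar) : ℂ)) P₀ (i1, a) (k, a') =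
          ((y k : Qbar) : ℂ) * P₀ a a' := by simp [weilOf, i1]
      have h4 : weilOf (fun j => ((y j : Qbar) : ℂ)) P₀ (i0, a) (k, a') = P₀ a a' := by
        simp [weilOf, i0]
      rw [h3, h4] at h1
      rw [sub_mul]
      simpa using h1
    rcases mul_eq_zero.1 h2 with h3 | h3
    · have h4 : y k = (c : Qbar) := Subtype.ext (sub_eq_zero.1 h3)
      exact hc'ne (hyk.symm.trans h4)
    · exact haa h3

/-- A point of `B_{P,s}` for a period matrix `A(t) Q` with `Q` constant and `A` algebraic and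
single-valued. -/
theorem evK_eq_zero_of_const {ι : Type} [Fintype ι] [DecidableEq ι] {U : Set ℂ}
    (A : Matrix ι ι (Polynomial Qbar)) (Q : Matrix ι ι ℂ) {P : ℂ → Matrix ι ι ℂ}
    (hP : ∀ t ∈ U, P t = A.map (ev t) * Q) {s : Qbar} (hsU : (s : ℂ) ∈ U)
    (hdet : IsUnit (A.map (ev (s : ℂ))).det) {κ : IntermediateField ℚ Qbar}
    (r : MvPolynomial (ι × ι) κ) (hr : evK κ r (P (s : ℂ)) = 0) {M : Matrix ι ι ℂ}
    (hM : M ∈ BFibre U P (s : ℂ)) : evK κ r M = 0 := by
  let R := MvPolynomial (ι × ι) (Polynomial Qbar)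
  let φ : κ →+* R := (MvPolynomial.C.comp Polynomial.C).comp (algebraMap κ Qbar)
  let A' : Matrix ι ι R := A.map MvPolynomial.C
  let As : Matrix ι ι R := A.map (fun p => MvPolynomial.C (C (p.eval s)))
  let W : Matrix ι ι R := As * A'.adjugate * gen (Polynomial Qbar)
  let q : R := hev r r.totalDegree φ (fun p => W p.1 p.2) A'.det
  have key : ∀ (t : ℂ) (M : Matrix ι ι ℂ), evM q t M =
      hev r r.totalDegree (algebraMap κ ℂ) (fun p => (A.map (ev (s : ℂ)) *
        (A.map (ev t)).adjugate * M) p.1 p.2) (A.map (ev t)).det := by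
    intro t M
    rw [evM_eq, hev_map]
    have h2 : (evR t M).comp φ = algebraMap κ ℂ := by
      refine RingHom.ext (fun a => ?_)
      simp only [φ, RingHom.comp_apply]
      rw [evR_C, ev_C]
      rfl
    have h3 : A'.map (evR t M) = A.map (ev t) := by
      ext i j
      exact evR_C t M _
    have h4 : As.map (evR t M) = A.map (ev (s : ℂ)) := by
      ext i j
      simp only [As, Matrix.map_apply]
      rw [evR_C, ev_C, ev_coe_apply]
    rw [h2]
    congr 1
    · funext p
      have h6 : W.map (evR t M) = A.map (ev (s : ℂ)) * (A.map (ev t)).adjugate * M := by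
        simp only [W]
        rw [Matrix.map_mul, Matrix.map_mul, h4, evR_gen]
        congr 2
        have := RingHom.map_adjugate (evR t M) A'
        rw [RingHom.mapMatrix_apply, RingHom.mapMatrix_apply, h3] at this
        exact this
      rw [← h6]
      rfl
    · have := RingHom.map_det (evR t M) A'
      rw [RingHom.mapMatrix_apply, h3] at this
      exact this
  have h1 := hM.2 q (fun t ht => by
    rw [key, hP t ht]
    rw [hev_eq r le_rfl _ _ (fun p => (A.map (ev (s : ℂ)) * Q) p.1 p.2) _ (fun p => by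
      have : A.map (ev (s : ℂ)) * (A.map (ev t)).adjugate * (A.map (ev t) * Q) =
          (A.map (ev t)).det • (A.map (ev (s : ℂ)) * Q) := by
        rw [← Matrix.mul_assoc, Matrix.mul_assoc (A.map (ev (s : ℂ))), Matrix.adjugate_mul]
        rw [Matrix.mul_smul, Matrix.mul_one, Matrix.smul_mul]
      rw [this]
      rfl)]
    have h2 : evK κ r (A.map (ev (s : ℂ)) * Q) = 0 := by
      rw [← hP _ hsU]; exact hr
    unfold evK at h2
    rw [MvPolynomial.aeval_def] at h2
    rw [h2, mul_zero])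
  rw [key] at h1
  rw [hev_eq r le_rfl _ _ (fun p => M p.1 p.2) _ (fun p => by
    have : A.map (ev (s : ℂ)) * (A.map (ev (s : ℂ))).adjugate * M =
        (A.map (ev (s : ℂ))).det • M := by
      rw [Matrix.mul_adjugate, Matrix.smul_mul, Matrix.one_mul]
    rw [this]
    rfl)] at h1
  rcases mul_eq_zero.1 h1 with h2 | h2
  · exact absurd h2 (pow_ne_zero _ hdet.ne_zero)
  · exact h2

theorem P_mem_ZClosure {ι : Type} [Fintype ι] [DecidableEq ι] {P : Matrix ι ι ℂ}
    (h : IsUnit P.det) : P ∈ ZClosure P := ⟨h, fun _ hq => hq⟩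

theorem not_hasRelation_weil_of_trivial (hT : f.Trivial) {s : Qbar} (b : f.Branch (s : ℂ))
    {P₀ : Matrix (Fin m) (Fin m) ℂ} (hP₀ : IsUnit P₀.det) (g : GL (Fin f.deg × Fin m) ℚ)
    (κ : IntermediateField ℚ Qbar) (δ : ℕ) :
    ¬ HasRelation b.U (fun t => weil b P₀ t * toC g) (s : ℂ) κ δ := by
  rintro ⟨r, _, hZ, hB⟩
  apply hB
  intro M hM
  have h := f.exists_eq_of_trivial hT b
  choose a ha using h
  let A : Matrix (Fin f.deg × Fin m) (Fin f.deg × Fin m) (Polynomial Qbar) :=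
    Matrix.of fun p q => a q.1 ^ (p.1 : ℕ) * if p.2 = q.2 then 1 else 0
  let Q : Matrix (Fin f.deg × Fin m) (Fin f.deg × Fin m) ℂ :=
    (Matrix.of fun p q => if p.1 = q.1 then P₀ p.2 q.2 else 0)
  have hAQ : ∀ t ∈ b.U, weil b P₀ t = A.map (ev t) * Q := by
    intro t ht
    ext p q
    rw [Matrix.mul_apply, Fintype.sum_prod_type]
    rw [Finset.sum_eq_single q.1]
    · rw [Finset.sum_eq_single p.2]
      · simp [weil, A, Q, ha _ t ht]
      · intro c _ hc
        simp [A, Ne.symm hc]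
      · intro h; exact absurd (Finset.mem_univ _) h
    · intro i _ hi
      refine Finset.sum_eq_zero (fun c _ => ?_)
      simp [Q, hi]
    · intro h; exact absurd (Finset.mem_univ _) h
  have hdetP : ∀ t ∈ b.U, IsUnit (weil b P₀ t).det := fun t ht => weilOf_det (b.inj t ht) hP₀
  refine evK_eq_zero_of_const A (Q * toC g) (fun t ht => by
    rw [hAQ t ht, Matrix.mul_assoc]) b.mem ?_ r ?_ hM
  · have h1 := hdetP _ b.mem
    rw [hAQ _ b.mem, Matrix.det_mul] at h1
    exact isUnit_of_mul_isUnit_left h1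
  · refine hZ _ (P_mem_ZClosure ?_)
    rw [Matrix.det_mul]
    exact (hdetP _ b.mem).mul (toC_det g)

theorem weil_infinite (hT : ¬ f.Trivial) :
    {s : Qbar | (s : ℂ) ∈ f.S ∧ ∀ (m : ℕ), 1 ≤ m → ∀ P₀ : Matrix (Fin m) (Fin m) ℂ,
      IsUnit P₀.det → ∀ (b : f.Branch (s : ℂ)) (g : GL (Fin f.deg × Fin m) ℚ)
      (κ : IntermediateField ℚ Qbar) (δ : ℕ), 1 ≤ δ →
        HasRelation b.U (fun t => weil b P₀ t * toC g) (s : ℂ) κ δ}.Infinite := by
  rcases split_or f.deg f.F f.monic rfl with ⟨a, ha⟩ | ⟨G, hG, hGm, hdeg, hGF⟩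
  · exact absurd ⟨a, ha⟩ hT
  · refine (infinite_points hG hGm hdeg f.D_ne).mono ?_
    rintro s ⟨hDs, c, hc⟩
    have hs : (s : ℂ) ∈ f.S := by
      change ev (s : ℂ) f.D ≠ 0
      rw [ev_coe_apply]
      exact fun h => hDs (Subtype.ext h)
    exact ⟨hs, fun m hm P₀ hP₀ b g κ δ hδ =>
      hasRelation_mul_right (hasRelation_weil hG hGm hdeg hGF hs hc b hm hP₀ κ hδ) g⟩

theorem weilHolds_iff (hm : 1 ≤ m) {P₀ : Matrix (Fin m) (Fin m) ℂ} (hP₀ : IsUnit P₀.det)
    (K : IntermediateField ℚ Qbar) {δ : ℕ} (hδ : 1 ≤ δ) :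
    WeilHolds f P₀ K δ ↔ f.Trivial := by
  constructor
  · intro hH
    by_contra hT
    obtain ⟨s, hs, hrel⟩ := (weil_infinite hT).nonempty
    obtain ⟨b⟩ := f.exists_branch hs
    exact hH s hs b 1 (hrel m hm P₀ hP₀ b 1 _ δ hδ)
  · intro hT s _ b g
    exact not_hasRelation_weil_of_trivial hT b hP₀ g _ δ

end Pool.Agent.Helper64.Per2
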